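import Mathlib

set_option autoImplicit false
open MeasureTheory Filter Set Topology
open scoped ENNReal

namespace Pool.Agent.H.MP_04276e_nt

theorem sep {ι : Type} (s : Finset ι) (f : ι → ℝ) (x0 ρ D : ℝ) (hD : 0 < D) (hρ : 0 ≤ ρ)
    (h1 : ∀ x ∈ s, |f x - x0| ≤ ρ) (h2 : ∀ x ∈ s, ∀ y ∈ s, x ≠ y → D ≤ |f x - f y|) :
    (s.card : ℝ) ≤ 2 * ρ / D + 1 := by
  let g : ι → ℕ := fun x => ⌊(f x - x0 + ρ) / D⌋₊
  have h3 : s.card ≤ (Finset.range (⌊2 * ρ / D⌋₊ + 1)).card := by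
    apply Finset.card_le_card_of_injOn g
    · intro x hx
      simp only [Finset.coe_range, mem_Iio, g, Nat.lt_succ_iff]
      apply Nat.floor_le_floor
      gcongr
      linarith [(abs_le.1 (h1 x hx)).2]
    · intro x hx y hy hxy
      by_contra hne
      have h4 := h2 x hx y hy hne
      have hx0 : 0 ≤ (f x - x0 + ρ) / D := div_nonneg (by linarith [(abs_le.1 (h1 x hx)).1]) hD.le
      have hy0 : 0 ≤ (f y - x0 + ρ) / D := div_nonneg (by linarith [(abs_le.1 (h1 y hy)).1]) hD.le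
      have a1 := Nat.floor_le hx0
      have a2 := Nat.floor_le hy0
      have a3 := Nat.lt_floor_add_one ((f x - x0 + ρ) / D)
      have a4 := Nat.lt_floor_add_one ((f y - x0 + ρ) / D)
      simp only [g] at hxy
      rw [hxy] at a1 a3
      rw [le_div_iff₀ hD] at a1 a2
      rw [div_lt_iff₀ hD] at a3 a4
      rcases abs_cases (f x - f y) with h | h <;> nlinarith [h.1]
  rw [Finset.card_range] at h3
  have h5 : (s.card : ℝ) ≤ (⌊2 * ρ / D⌋₊ : ℝ) + 1 := by exact_mod_cast h3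
  linarith [Nat.floor_le (show 0 ≤ 2 * ρ / D by positivity)]

theorem card_le_real {ι κ : Type} [DecidableEq κ] (s : Finset ι) (t : Finset κ) (f : ι → κ)
    (hf : ∀ x ∈ s, f x ∈ t) (y : κ → ℝ)
    (hy : ∀ b ∈ t, ((s.filter fun a => f a = b).card : ℝ) ≤ y b) : (s.card : ℝ) ≤ ∑ b ∈ t, y b := by
  rw [Finset.card_eq_sum_card_fiberwise hf]
  push_cast
  exact Finset.sum_le_sum hy

theorem harm (N M : ℕ) : (M : ℝ) / 2 ≤ ∑ u ∈ Finset.Ico (2 ^ N : ℕ) (2 ^ (N + M)), 1 / (u : ℝ) := by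
  induction M with
  | zero => simp
  | succ M ih =>
    rw [← Finset.sum_Ico_consecutive _ (n := 2 ^ (N + M))
      (Nat.pow_le_pow_right (by norm_num) (by omega)) (Nat.pow_le_pow_right (by norm_num) (by omega))]
    have h : (1 : ℝ) / 2 ≤ ∑ u ∈ Finset.Ico (2 ^ (N + M) : ℕ) (2 ^ (N + (M + 1))), 1 / (u : ℝ) := by
      have h1 : ∀ u ∈ Finset.Ico (2 ^ (N + M) : ℕ) (2 ^ (N + (M + 1))),
          (1 : ℝ) / 2 ^ (N + (M + 1)) ≤ 1 / (u : ℝ) := by
        intro u hu
        rw [Finset.mem_Ico] at hu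
        have h2 : (0 : ℝ) < u := by exact_mod_cast lt_of_lt_of_le (by positivity) hu.1
        gcongr
        exact_mod_cast hu.2.le
      refine le_trans (le_of_eq ?_) (Finset.card_nsmul_le_sum _ _ _ h1)
      rw [Nat.card_Ico, show 2 ^ (N + (M + 1)) - 2 ^ (N + M) = 2 ^ (N + M) by
        rw [← add_assoc, pow_succ]; omega, nsmul_eq_mul, ← add_assoc, pow_succ]
      push_cast
      field_simp
    push_cast
    linarith

theorem annuli (Z : Set ℝ) (B : ℝ) (hZ : Z ⊆ Icc (-B) B) (hne : Z.Nonempty) (C κ : ℝ) (k : ℕ)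
    (hκ : 0 < κ) (lo hi : ℕ → ℝ) (hlo : ∀ u, 1 ≤ u → 0 < lo u)
    (hratio : ∀ u u', 1 ≤ u → u ≤ u' → lo u ≤ hi u' → (2 : ℝ) ^ (u' - u) ≤ C * u ^ k)
    (hhi : Tendsto hi atTop (𝓝 0))
    (hev : ∀ᶠ u : ℕ in atTop, ENNReal.ofReal (κ / u) ≤
      volume {y | lo u ≤ Metric.infDist y Z ∧ Metric.infDist y Z ≤ hi u}) : False := by
  classical
  have hd : Measurable fun y : ℝ => Metric.infDist y Z := (Metric.continuous_infDist_pt Z).measurable
  let Y : ℕ → Set ℝ := fun n => {y | 0 < Metric.infDist y Z ∧ Metric.infDist y Z ≤ 1 / ((n : ℝ) + 1)}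
  have hYm : ∀ n, MeasurableSet (Y n) := fun n =>
    (measurableSet_lt measurable_const hd).inter (measurableSet_le hd measurable_const)
  have hlim : Tendsto (fun n => volume (Y n)) atTop (𝓝 (volume (⋂ n, Y n))) := by
    apply tendsto_measure_iInter_atTop (fun n => (hYm n).nullMeasurableSet)
    · intro n n' h y hy
      refine ⟨hy.1, hy.2.trans ?_⟩
      gcongr
    · refine ⟨0, ne_top_of_le_ne_top (b := volume (Icc (-B - 2) (B + 2))) (by simp) (measure_mono ?_)⟩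
      intro y hy
      obtain ⟨z, hz, hyz⟩ := (Metric.infDist_lt_iff hne).1 (show Metric.infDist y Z < 2 by
        have := hy.2
        simp at this
        linarith)
      rw [Real.dist_eq, abs_lt] at hyz
      have := hZ hz
      constructor <;> linarith [this.1, this.2, hyz.1, hyz.2]
  have hempty : (⋂ n, Y n) = ∅ := by
    ext y
    simp only [mem_iInter, mem_empty_iff_false, iff_false]
    intro h
    obtain ⟨n, hn⟩ := exists_nat_one_div_lt (h 0).1
    exact absurd (h n).2 (not_le.2 hn)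
  rw [hempty, measure_empty] at hlim
  have hδ : (0 : ℝ≥0∞) < ENNReal.ofReal (κ / (8 * k + 8)) := ENNReal.ofReal_pos.2 (by positivity)
  obtain ⟨n, hn⟩ := (hlim.eventually_lt_const hδ).exists
  have hev2 := hev.and (hhi.eventually_le_const (show (0 : ℝ) < 1 / ((n : ℝ) + 1) by positivity))
  obtain ⟨u0, hu0⟩ := eventually_atTop.1 hev2
  obtain ⟨N, hN⟩ := exists_nat_ge (max C (max (u0 : ℝ) 1))
  have hN2 : (N : ℝ) ≤ 2 ^ N := by exact_mod_cast Nat.lt_two_pow_self.le
  have hC : C ≤ 2 ^ N := (le_max_left _ _).trans (hN.trans hN2)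
  have hu : u0 ≤ 2 ^ N := by
    have : (u0 : ℝ) ≤ 2 ^ N := ((le_max_left _ _).trans (le_max_right _ _)).trans (hN.trans hN2)
    exact_mod_cast this
  have hN1 : (1 : ℝ) ≤ N := ((le_max_right _ _).trans (le_max_right _ _)).trans hN
  let I := Finset.Ico (2 ^ N) (2 ^ (N + N))
  let X : ℕ → Set ℝ := fun u => {y | lo u ≤ Metric.infDist y Z ∧ Metric.infDist y Z ≤ hi u}
  have hXm : ∀ u, MeasurableSet (X u) := fun u =>
    (measurableSet_le measurable_const hd).inter (measurableSet_le hd measurable_const)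
  have hI : ∀ u ∈ I, 1 ≤ u ∧ u0 ≤ u ∧ u ≤ 2 ^ (N + N) := fun u hu' => by
    have := Finset.mem_Ico.1 hu'
    exact ⟨le_trans Nat.one_le_two_pow this.1, hu.trans this.1, this.2.le⟩
  have hpt : ∀ y, ∑ u ∈ I, (X u).indicator (1 : ℝ → ℝ≥0∞) y ≤
      (((2 * k + 1) * N + 1 : ℕ) : ℝ≥0∞) * (Y n).indicator 1 y := by
    intro y
    simp only [indicator, Pi.one_apply]
    rw [Finset.sum_boole]
    by_cases hS : (I.filter fun u => y ∈ X u).Nonempty
    swap
    · rw [Finset.not_nonempty_iff_eq_empty.1 hS]; simp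
    set S := I.filter fun u => y ∈ X u
    have hm := Finset.mem_filter.1 (S.min'_mem hS)
    have hy : y ∈ Y n := ⟨(hlo _ (hI _ hm.1).1).trans_le hm.2.1, hm.2.2.trans (hu0 _ (hI _ hm.1).2.1).2⟩
    rw [if_pos hy, mul_one]
    have : S ⊆ Finset.Icc (S.min' hS) (S.min' hS + (2 * k + 1) * N) := by
      intro u hu'
      have h1 := S.min'_le u hu'
      have h2 := Finset.mem_filter.1 hu'
      have h3 := hratio _ _ (hI _ hm.1).1 h1 (hm.2.1.trans h2.2.2)
      have h4 : C * (S.min' hS : ℝ) ^ k ≤ 2 ^ ((2 * k + 1) * N) := by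
        have h5 : (S.min' hS : ℝ) ≤ 2 ^ (N + N) := by exact_mod_cast (hI _ hm.1).2.2
        calc C * (S.min' hS : ℝ) ^ k ≤ 2 ^ N * (2 ^ (N + N)) ^ k := by gcongr
          _ = _ := by rw [← pow_mul, ← pow_add]; congr 1; ring
      have h6 := (pow_le_pow_iff_right₀ (show (1 : ℝ) < 2 by norm_num)).1 (h3.trans h4)
      rw [Finset.mem_Icc]
      omega
    have h7 := Finset.card_le_card this
    rw [Nat.card_Icc] at h7
    exact_mod_cast (by omega : S.card ≤ (2 * k + 1) * N + 1)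
  have h8 : ∑ u ∈ I, volume (X u) ≤ (((2 * k + 1) * N + 1 : ℕ) : ℝ≥0∞) * volume (Y n) := by
    calc ∑ u ∈ I, volume (X u) = ∑ u ∈ I, ∫⁻ y, (X u).indicator 1 y :=
          Finset.sum_congr rfl fun u _ => (lintegral_indicator_one (hXm u)).symm
      _ = ∫⁻ y, ∑ u ∈ I, (X u).indicator 1 y :=
          (lintegral_finsetSum _ fun u _ => measurable_one.indicator (hXm u)).symm
      _ ≤ ∫⁻ y, (((2 * k + 1) * N + 1 : ℕ) : ℝ≥0∞) * (Y n).indicator 1 y := lintegral_mono hpt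
      _ = _ := by
          rw [lintegral_const_mul _ (measurable_one.indicator (hYm n)), lintegral_indicator_one (hYm n)]
  have h9 : ENNReal.ofReal (κ * (N / 2)) ≤ ∑ u ∈ I, volume (X u) := by
    calc ENNReal.ofReal (κ * (N / 2)) ≤ ENNReal.ofReal (∑ u ∈ I, κ / u) := by
          apply ENNReal.ofReal_le_ofReal
          calc κ * (N / 2) ≤ κ * ∑ u ∈ I, 1 / (u : ℝ) := by gcongr; exact harm N N
            _ = _ := by rw [Finset.mul_sum]; exact Finset.sum_congr rfl fun u _ => by ring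
      _ = ∑ u ∈ I, ENNReal.ofReal (κ / u) := ENNReal.ofReal_sum_of_nonneg fun u _ => by positivity
      _ ≤ _ := Finset.sum_le_sum fun u hu' => (hu0 u (hI u hu').2.1).1
  have h10 : (((2 * k + 1) * N + 1 : ℕ) : ℝ≥0∞) * volume (Y n) ≤
      ENNReal.ofReal ((((2 * k + 1) * N + 1 : ℕ) : ℝ) * (κ / (8 * k + 8))) := by
    rw [ENNReal.ofReal_mul (by positivity), ENNReal.ofReal_natCast]
    gcongr
  have h11 := (ENNReal.ofReal_le_ofReal_iff (by positivity)).1 (h9.trans (h8.trans h10))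
  push_cast at h11
  have h12 : ((2 * (k : ℝ) + 1) * N + 1) * (κ / (8 * k + 8)) ≤ ((2 * k + 2) * N) * (κ / (8 * k + 8)) := by
    gcongr
    linarith
  have h13 : ((2 * (k : ℝ) + 2) * N) * (κ / (8 * k + 8)) = κ * (N / 4) := by
    field_simp
    ring
  nlinarith

theorem gcd_count (b b' g0 : ℕ) (hg : 1 ≤ g0) :
    (((Finset.Icc 1 b ×ˢ Finset.Icc 1 b').filter fun p => g0 < Nat.gcd p.1 p.2).card : ℝ) ≤
      b * b' / g0 := by
  classical
  by_cases hb : g0 ≤ b
  swap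
  · rw [Finset.filter_eq_empty_iff.2]
    · simp; positivity
    · intro p hp
      simp only [Finset.mem_product, Finset.mem_Icc] at hp
      have := Nat.gcd_le_left p.2 (show 0 < p.1 by omega)
      omega
  refine (card_le_real _ (Finset.Ioc g0 b) (fun p => Nat.gcd p.1 p.2) ?_
    (fun g => (b * b' : ℝ) * ((g : ℝ) ^ 2)⁻¹) ?_).trans ?_
  · intro p hp
    simp only [Finset.mem_filter, Finset.mem_product, Finset.mem_Icc] at hp
    have := Nat.gcd_le_left p.2 (show 0 < p.1 by omega)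
    rw [Finset.mem_Ioc]
    omega
  · intro g hg'
    rw [Finset.mem_Ioc] at hg'
    have h1 : (((Finset.Icc 1 b ×ˢ Finset.Icc 1 b').filter fun p => g0 < Nat.gcd p.1 p.2).filter
        fun p => Nat.gcd p.1 p.2 = g) ⊆
        ((Finset.Ioc 0 b).filter fun x => g ∣ x) ×ˢ ((Finset.Ioc 0 b').filter fun x => g ∣ x) := by
      intro p hp
      simp only [Finset.mem_filter, Finset.mem_product, Finset.mem_Icc, Finset.mem_Ioc] at hp ⊢
      refine ⟨⟨by omega, ?_⟩, by omega, ?_⟩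
      · rw [← hp.2]; exact Nat.gcd_dvd_left _ _
      · rw [← hp.2]; exact Nat.gcd_dvd_right _ _
    have h2 := Finset.card_le_card h1
    rw [Finset.card_product, Nat.Ioc_filter_dvd_card_eq_div, Nat.Ioc_filter_dvd_card_eq_div] at h2
    have hg0 : (0 : ℝ) < g := by exact_mod_cast (by omega : 0 < g)
    calc _ ≤ ((b / g : ℕ) : ℝ) * ((b' / g : ℕ) : ℝ) := by exact_mod_cast h2
      _ ≤ (b / g) * (b' / g) := by gcongr <;> exact Nat.cast_div_le
      _ = _ := by field_simp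
  · rw [← Finset.mul_sum, div_eq_mul_inv]
    gcongr
    have := sum_Ioc_inv_sq_le_sub (α := ℝ) (by omega : g0 ≠ 0) hb
    have h3 : (0 : ℝ) ≤ (b : ℝ)⁻¹ := by positivity
    linarith

/-- Integer points on a line. -/
theorem line_count (q q' : ℕ) (hq : 1 ≤ q) (m : ℤ) (s : Finset (ℤ × ℤ)) (x0 ρ : ℝ) (hρ : 0 ≤ ρ)
    (h1 : ∀ p ∈ s, |(p.1 : ℝ) - x0| ≤ ρ) (h2 : ∀ p ∈ s, p.2 * q - p.1 * q' = m) :
    (s.card : ℝ) ≤ 2 * ρ * Nat.gcd q q' / q + 1 := by
  have hg : 0 < Nat.gcd q q' := Nat.gcd_pos_of_pos_left _ hq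
  obtain ⟨q1, q2, hcop, e1, e2⟩ := Nat.exists_coprime q q'
  set g := Nat.gcd q q'
  have hq1 : 0 < q1 := by
    rcases Nat.eq_zero_or_pos q1 with h | h
    · rw [h] at e1; omega
    · exact h
  have hq1' : (0 : ℝ) < q1 := by exact_mod_cast hq1
  have hg' : (0 : ℝ) < g := by exact_mod_cast hg
  have := sep s (fun p => (p.1 : ℝ)) x0 ρ q1 hq1' hρ h1 (by
    intro p hp p' hp' hne
    have h3 : (p.2 - p'.2) * q1 = (p.1 - p'.1) * q2 := by
      have a1 := h2 p hp
      have a2 := h2 p' hp'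
      rw [e1, e2] at a1 a2
      push_cast at a1 a2
      have hgz : (g : ℤ) ≠ 0 := by exact_mod_cast hg.ne'
      apply mul_right_cancel₀ hgz
      linarith
    have h4 : (q1 : ℤ) ∣ p.1 - p'.1 := by
      have : IsCoprime (q1 : ℤ) (q2 : ℤ) := Nat.isCoprime_iff_coprime.2 hcop
      exact this.dvd_of_dvd_mul_right ⟨p.2 - p'.2, by linarith⟩
    have h5 : p.1 - p'.1 ≠ 0 := by
      intro h
      apply hne
      rw [h, zero_mul] at h3
      have : p.2 - p'.2 = 0 := by
        rcases mul_eq_zero.1 h3 with h | h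
        · exact h
        · exact absurd h (by exact_mod_cast hq1.ne')
      ext <;> omega
    have h6 := Int.le_of_dvd (abs_pos.2 h5) ((dvd_abs _ _).2 h4)
    exact_mod_cast h6)
  convert this using 2
  rw [e1]
  push_cast
  field_simp

end Pool.Agent.H.MP_04276e_nt
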