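import Pool.Agent.H.MP_04276e_nt.A

set_option autoImplicit false
open MeasureTheory Filter Set Topology
open scoped ENNReal

namespace Pool.Agent.H.MP_04276e_nt

variable {J : Type} [Fintype J] [DecidableEq J]

def form (α : J → ℝ) (n : J → ℤ) : ℝ := ∑ r, (n r : ℝ) * α r

def Dio (α : J → ℝ) (κ : ℝ) (k : ℕ) : Prop :=
  ∀ (X : J → ℝ) (e : ℕ), (∀ r, 2 ≤ X r) → 2 * ∏ r, X r ≤ 2 ^ e → ∀ n : J → ℤ, n ≠ 0 →
    (∀ r, |(n r : ℝ)| ≤ X r) → ∀ l : ℤ, κ / (2 * (∏ r, X r) * e ^ k) ≤ |form α n + l|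

omit [DecidableEq J] in
theorem form_add (α : J → ℝ) (n n' : J → ℤ) : form α (n + n') = form α n + form α n' := by
  simp [form, add_mul, Finset.sum_add_distrib]

omit [DecidableEq J] in
theorem form_sub (α : J → ℝ) (n n' : J → ℤ) : form α (n - n') = form α n - form α n' := by
  simp [form, sub_mul, Finset.sum_sub_distrib]

omit [DecidableEq J] in
theorem form_zero (α : J → ℝ) : form α 0 = 0 := by simp [form]

omit [DecidableEq J] in
theorem form_neg (α : J → ℝ) (n : J → ℤ) : form α (-n) = -form α n := by simp [form]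

theorem int_eq_of {l l' : ℤ} {x ε : ℝ} (hε : ε ≤ 1 / 2) (h : |x + l| < ε) (h' : |x + l'| < ε) :
    l = l' := by
  have h1 : |((l - l' : ℤ) : ℝ)| < 1 := by
    push_cast
    rw [abs_lt] at *
    constructor <;> linarith [h.1, h.2, h'.1, h'.2]
  have h2 : |l - l'| < 1 := by exact_mod_cast h1
  rw [abs_lt] at h2
  omega

theorem crude {α : J → ℝ} {κ : ℝ} {k : ℕ} (hD : Dio α κ k) (hκ : 0 < κ) (M : J → ℝ) (e : ℕ) (ε : ℝ)
    (hM : ∀ r, 1 ≤ M r) (he : 2 * ∏ r, (2 * M r) ≤ 2 ^ e) (he1 : 1 ≤ e) (hε0 : 0 ≤ ε) (hε : ε ≤ 1 / 2)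
    (S : Finset ((J → ℤ) × ℤ)) (hS0 : (0 : (J → ℤ) × ℤ) ∉ S)
    (hS : ∀ p ∈ S, (∀ r, |(p.1 r : ℝ)| ≤ M r) ∧ |form α p.1 + p.2| < ε) :
    (S.card : ℝ) ≤ 4 * ε * (∏ r, (2 * M r)) * e ^ k / κ := by
  have hP : 0 < ∏ r, (2 * M r) := Finset.prod_pos fun r _ => by linarith [hM r]
  have he' : (0 : ℝ) < e := by exact_mod_cast he1
  rcases hε0.eq_or_lt with h0 | h0
  · have : S = ∅ := Finset.eq_empty_of_forall_notMem fun p hp => by
      have := (hS p hp).2
      rw [← h0] at this
      exact absurd this (not_lt.2 (abs_nonneg _))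
    simp [this, ← h0]
  have hS' : ∀ p ∈ insert (0 : (J → ℤ) × ℤ) S,
      (∀ r, |(p.1 r : ℝ)| ≤ M r) ∧ |form α p.1 + p.2| < ε := by
    intro p hp
    rcases Finset.mem_insert.1 hp with rfl | hp
    · exact ⟨fun r => by simpa using (by linarith [hM r] : 0 ≤ M r), by simpa [form_zero] using h0⟩
    · exact hS p hp
  have := sep (insert (0 : (J → ℤ) × ℤ) S) (fun p => form α p.1 + p.2) 0 ε
    (κ / (2 * (∏ r, (2 * M r)) * e ^ k)) (by positivity) hε0
    (fun p hp => by simpa using (hS' p hp).2.le) (by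
      intro p hp p' hp' hne
      have h1 : p.1 - p'.1 ≠ 0 := by
        intro h
        apply hne
        have h2 : p.1 = p'.1 := sub_eq_zero.1 h
        refine Prod.ext h2 (int_eq_of hε (hS' p hp).2 ?_)
        rw [h2]
        exact (hS' p' hp').2
      have := hD (fun r => 2 * M r) e (fun r => by linarith [hM r]) he _ h1 (fun r => by
        simp only [Pi.sub_apply]
        push_cast
        refine (abs_sub _ _).trans ?_
        linarith [(hS' p hp).1 r, (hS' p' hp').1 r]) (p.2 - p'.2)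
      convert this using 2
      rw [form_sub]
      push_cast
      ring)
  rw [Finset.card_insert_of_notMem hS0] at this
  push_cast at this
  calc (S.card : ℝ) ≤ 2 * ε / (κ / (2 * (∏ r, (2 * M r)) * e ^ k)) := by linarith
    _ = _ := by field_simp; ring

theorem ivt (φ : ℕ → ℕ) (h0 : φ 0 = 0) (h1 : ∀ t, φ (t + 1) ≤ φ t + 1) (T v : ℕ) (hv : v ≤ φ T) :
    ∃ t, φ t = v := by
  classical
  have hex : ∃ t, v ≤ φ t := ⟨T, hv⟩
  refine ⟨Nat.find hex, le_antisymm ?_ (Nat.find_spec hex)⟩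
  rcases Nat.eq_zero_or_eq_succ_pred (Nat.find hex) with h | h
  · rw [h, h0]; omega
  · have h2 := Nat.find_min hex (m := (Nat.find hex).pred) (by omega)
    have h3 := h1 (Nat.find hex).pred
    rw [h]
    simp only [Nat.succ_eq_add_one] at *
    omega

theorem cover {α : J → ℝ} {κ : ℝ} {k : ℕ} (hD : Dio α κ k) (hκ : 0 < κ) (X : J → ℕ) (e J0 : ℕ)
    (hX : ∀ r, 2 ≤ X r) (he : 2 * ∏ r, (X r : ℝ) ≤ 2 ^ e) (he1 : 1 ≤ e)
    (hJ : 4 * (e : ℝ) ^ k / κ < J0) (y : ℝ) (hy : 0 ≤ y) :
    ∃ (n : J → ℤ) (l : ℤ), (∀ r, |(n r : ℝ)| ≤ (2 * J0 : ℕ) * X r) ∧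
      |y - form α n - l| ≤ (2 * J0 : ℕ) * (κ / (4 * (∏ r, (X r : ℝ)) * e ^ k)) := by
  classical
  have hX' : ∀ r, (2 : ℝ) ≤ X r := fun r => by exact_mod_cast hX r
  have hV : 1 ≤ ∏ r, (X r : ℝ) := Finset.one_le_prod fun r _ => by linarith [hX' r]
  have he' : (0 : ℝ) < e := by exact_mod_cast he1
  set V := ∏ r, (X r : ℝ) with hVdef
  set ε := κ / (4 * V * e ^ k) with hεdef
  have hε : 0 < ε := by positivity
  let D : ℕ → ℝ → Prop := fun j y => ∃ (n : J → ℤ) (l : ℤ), (∀ r, |(n r : ℝ)| ≤ j * X r) ∧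
      |y - form α n - l| ≤ j * ε
  have hex : ∀ y, ∃ j, D j y := by
    intro y
    obtain ⟨j, hj⟩ := exists_nat_ge (|y| / ε)
    refine ⟨j, 0, 0, fun r => by simp; positivity, ?_⟩
    rw [div_le_iff₀ hε] at hj
    simpa [form_zero] using hj
  let d : ℝ → ℕ := fun y => Nat.find (hex y)
  have hstep : ∀ (y y' : ℝ) (n : J → ℤ) (l : ℤ), (∀ r, |(n r : ℝ)| ≤ X r) →
      |y' - y - form α n - l| ≤ ε → d y' ≤ d y + 1 := by
    intro y y' n l hn hl
    obtain ⟨n', l', hn', hl'⟩ := Nat.find_spec (hex y)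
    apply Nat.find_min'
    refine ⟨n' + n, l' + l, fun r => ?_, ?_⟩
    · simp only [Pi.add_apply]
      push_cast
      refine (abs_add_le _ _).trans ?_
      linarith [hn r, hn' r]
    · rw [form_add]
      push_cast
      rw [show y' - (form α n' + form α n) - (l' + l) =
        (y - form α n' - l') + (y' - y - form α n - l) by ring]
      refine (abs_add_le _ _).trans ?_
      linarith
  by_contra hcon
  have hdy : 2 * J0 ≤ d y := by
    by_contra h
    apply hcon
    obtain ⟨n, l, hn, hl⟩ := Nat.find_spec (hex y)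
    have h' : ((d y : ℕ) : ℝ) ≤ (2 * J0 : ℕ) := by exact_mod_cast (not_le.1 h).le
    exact ⟨n, l, fun r => (hn r).trans (by gcongr), hl.trans (by gcongr)⟩
  obtain ⟨T, hT⟩ := exists_nat_ge (y / ε)
  rw [div_le_iff₀ hε] at hT
  have hz : ∀ u : ℕ, ∃ z : ℝ, u ≤ J0 → d z = 2 * u := by
    intro u
    by_cases hu : u ≤ J0
    swap
    · exact ⟨0, fun h => absurd h hu⟩
    obtain ⟨t, ht⟩ := ivt (fun t => d (min (t * ε) y)) (by
      simp only [Nat.cast_zero, zero_mul, min_eq_left hy, d]
      rw [Nat.find_eq_zero]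
      exact ⟨0, 0, by simp, by simp [form_zero]⟩) (fun t => by
      apply hstep _ _ 0 0 (fun r => by simp)
      simp only [form_zero, Int.cast_zero, sub_zero]
      push_cast
      rw [abs_le]
      constructor <;> rcases le_total (t * ε) y with h | h <;>
        rcases le_total ((t + 1) * ε) y with h' | h' <;> simp [h, h'] <;> nlinarith) T (2 * u) (by
      simp only [min_eq_right hT]
      omega)
    exact ⟨_, fun _ => ht⟩
  choose z hz using hz
  have := sep (Finset.range (J0 + 1) ×ˢ Fintype.piFinset fun r => Finset.range (X r))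
    (fun p => Int.fract (z p.1 + form α fun r => (p.2 r : ℤ))) (1 / 2) (1 / 2) ε hε (by norm_num)
    (fun p _ => by
      rw [abs_le]
      constructor <;> linarith [Int.fract_nonneg (z p.1 + form α fun r => (p.2 r : ℤ)),
        Int.fract_lt_one (z p.1 + form α fun r => (p.2 r : ℤ))]) (by
      rintro ⟨u, n⟩ hp ⟨u', n'⟩ hp' hne
      simp only [Finset.mem_product, Finset.mem_range, Fintype.mem_piFinset] at hp hp'
      by_contra hlt
      push Not at hlt
      simp only [Int.fract] at hlt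
      have hb : ∀ r, |(((n r : ℤ) - (n' r : ℤ) : ℤ) : ℝ)| ≤ X r := fun r => by
        push_cast
        have a1 : (n r : ℝ) < X r := by exact_mod_cast hp.2 r
        have a2 : (n' r : ℝ) < X r := by exact_mod_cast hp'.2 r
        rw [abs_le]
        constructor <;> linarith [(Nat.cast_nonneg (n r) : (0 : ℝ) ≤ n r),
          (Nat.cast_nonneg (n' r) : (0 : ℝ) ≤ n' r)]
      set N : J → ℤ := fun r => (n r : ℤ)
      set N' : J → ℤ := fun r => (n' r : ℤ)
      by_cases hu : u = u'
      · subst hu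
        have h1 : N - N' ≠ 0 := by
          intro h
          apply hne
          congr 1
          ext r
          have := congrFun h r
          simp only [N, N', Pi.sub_apply, Pi.zero_apply] at this
          omega
        have h2 := hD (fun r => X r) e hX' he _ h1 hb (⌊z u + form α N'⌋ - ⌊z u + form α N⌋)
        rw [form_sub] at h2
        push_cast at h2
        have h3 : κ / (2 * V * e ^ k) = 2 * ε := by rw [hεdef]; field_simp; ring
        rw [← hVdef, h3] at h2
        have h4 : z u + form α N - ⌊z u + form α N⌋ - (z u + form α N' - ⌊z u + form α N'⌋) =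
          form α N - form α N' + (⌊z u + form α N'⌋ - ⌊z u + form α N⌋) := by ring
        rw [h4] at hlt
        linarith
      · have h1 := hstep (z u) (z u') (N - N') (⌊z u' + form α N'⌋ - ⌊z u + form α N⌋) hb (by
          rw [form_sub, abs_sub_comm]
          push_cast
          refine le_trans (le_of_eq ?_) hlt.le
          congr 1
          ring)
        have h2 := hstep (z u') (z u) (N' - N) (⌊z u + form α N⌋ - ⌊z u' + form α N'⌋)
          (fun r => by
            have := hb r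
            simp only [Pi.sub_apply, N, N']
            push_cast at this ⊢
            rwa [abs_sub_comm]) (by
          rw [form_sub]
          push_cast
          refine le_trans (le_of_eq ?_) hlt.le
          congr 1
          ring)
        rw [hz u (by omega), hz u' (by omega)] at h1 h2
        omega)
  simp only [Finset.card_product, Finset.card_range, Fintype.card_piFinset] at this
  push_cast at this
  rw [← hVdef] at this
  have h5 : 2 * (1 / 2) / ε = 4 * (e : ℝ) ^ k / κ * V := by rw [hεdef]; field_simp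
  rw [h5] at this
  nlinarith

theorem refined (α : J → ℝ) (M : J → ℝ) (ε : ℝ) (hM : ∀ r, 1 ≤ M r) (hε0 : 0 < ε) (hε : ε ≤ 1 / 4)
    (hc : ∀ y : ℝ, 0 ≤ y → ∃ (n : J → ℤ) (l : ℤ), (∀ r, |(n r : ℝ)| ≤ M r) ∧ |y - form α n - l| ≤ ε)
    (S : Finset ((J → ℤ) × ℤ))
    (hS : ∀ p ∈ S, (∀ r, |(p.1 r : ℝ)| ≤ M r) ∧ |form α p.1 + p.2| < ε) :
    (S.card : ℝ) ≤ 8 * ε * ∏ r, (5 * M r) := by
  classical
  choose n l hn hl using fun t : ℕ => hc (4 * ε * t) (by positivity)
  set T := ⌊1 / (4 * ε)⌋₊ with hT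
  have hT1 : (T : ℝ) ≤ 1 / (4 * ε) := Nat.floor_le (by positivity)
  have hT2 : 1 / (4 * ε) < T + 1 := Nat.lt_floor_add_one _
  have hT3 : 1 ≤ T := Nat.le_floor (by rw [Nat.cast_one, le_div_iff₀ (by positivity)]; linarith)
  have hT3' : (1 : ℝ) ≤ T := by exact_mod_cast hT3
  rw [le_div_iff₀ (by positivity)] at hT1
  rw [div_lt_iff₀ (by positivity)] at hT2
  have h1 : (S ×ˢ Finset.range T).card ≤
      (Fintype.piFinset fun r => Finset.Icc (-⌊2 * M r⌋) ⌊2 * M r⌋).card := by
    apply Finset.card_le_card_of_injOn fun p => p.1.1 + n p.2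
    · rintro ⟨p, t⟩ hp
      simp only [Finset.coe_product, mem_prod, Finset.mem_coe] at hp
      simp only [Finset.mem_coe, Fintype.mem_piFinset, Finset.mem_Icc, Pi.add_apply]
      intro r
      rw [← abs_le, Int.le_floor]
      push_cast
      refine (abs_add_le _ _).trans ?_
      linarith [(hS p hp.1).1 r, hn t r]
    · rintro ⟨p, t⟩ hp ⟨p', t'⟩ hp' heq
      simp only [Finset.coe_product, mem_prod, Finset.mem_coe, Finset.mem_range] at hp hp' heq
      have h2 := congrArg (form α) heq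
      rw [form_add, form_add] at h2
      have a1 := abs_lt.1 (hS p hp.1).2
      have a2 := abs_lt.1 (hS p' hp'.1).2
      have a3 := abs_le.1 (hl t)
      have a4 := abs_le.1 (hl t')
      have htt : t = t' := by
        set w : ℤ := p.2 + l t - p'.2 - l t' with hw
        have hw' : (w : ℝ) = p.2 + l t - p'.2 - l t' := by rw [hw]; push_cast; ring
        have b1 : (t : ℝ) + 1 ≤ T := by exact_mod_cast hp.2
        have b2 : (t' : ℝ) + 1 ≤ T := by exact_mod_cast hp'.2
        have b3 : (0 : ℝ) ≤ t := Nat.cast_nonneg _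
        have b4 : (0 : ℝ) ≤ t' := Nat.cast_nonneg _
        have c1 : |(w : ℝ)| < 1 := by
          rw [abs_lt]
          constructor <;> nlinarith [a1.1, a1.2, a2.1, a2.2, a3.1, a3.2, a4.1, a4.2]
        have c2 : |w| < 1 := by exact_mod_cast c1
        have c3 : w = 0 := by rw [abs_lt] at c2; omega
        rw [c3] at hw'
        push_cast at hw'
        have c4 : |((t : ℤ) - (t' : ℤ) : ℝ)| < 1 := by
          push_cast
          rw [abs_lt]
          constructor <;> nlinarith [a1.1, a1.2, a2.1, a2.2, a3.1, a3.2, a4.1, a4.2]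
        have c5 : |(t : ℤ) - (t' : ℤ)| < 1 := by exact_mod_cast c4
        rw [abs_lt] at c5
        omega
      subst htt
      have h3 : p.1 = p'.1 := add_right_cancel heq
      have h4 : p.2 = p'.2 := int_eq_of (by linarith) (hS p hp.1).2 (by rw [h3]; exact (hS p' hp'.1).2)
      rw [Prod.ext h3 h4]
  rw [Finset.card_product, Finset.card_range, Fintype.card_piFinset] at h1
  have h2 : (S.card : ℝ) * T ≤ ∏ r, (5 * M r) := by
    calc (S.card : ℝ) * T ≤ ∏ r, ((Finset.Icc (-⌊2 * M r⌋) ⌊2 * M r⌋).card : ℝ) := by exact_mod_cast h1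
      _ ≤ _ := by
        refine Finset.prod_le_prod (fun r _ => by positivity) fun r _ => ?_
        have h0 : 0 ≤ ⌊2 * M r⌋ := Int.floor_nonneg.2 (by linarith [hM r])
        have h3 : (((Finset.Icc (-⌊2 * M r⌋) ⌊2 * M r⌋).card : ℤ) : ℝ) = 2 * ⌊2 * M r⌋ + 1 := by
          rw [Int.card_Icc_of_le _ _ (by omega)]
          push_cast
          ring
        push_cast at h3
        rw [h3]
        linarith [Int.floor_le (2 * M r), hM r]
  have h3 : (0 : ℝ) ≤ S.card := Nat.cast_nonneg _
  have h4 : 1 ≤ 8 * ε * T := by nlinarith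
  calc (S.card : ℝ) ≤ S.card * (8 * ε * T) := le_mul_of_one_le_right h3 h4
    _ = 8 * ε * (S.card * T) := by ring
    _ ≤ _ := by gcongr

end Pool.Agent.H.MP_04276e_nt
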