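import Pool.Agent.H.MP_04276e_nt.B

set_option autoImplicit false
open MeasureTheory Filter Set Topology
open scoped ENNReal

namespace Pool.Agent.H.MP_04276e_nt

variable {J : Type} [Fintype J] [DecidableEq J]

abbrev W (J : Type) := ℕ × (J → ℤ) × ℤ

noncomputable def cen (α : J → ℝ) (w : W J) : ℝ := -(form α w.2.1 + w.2.2) / w.1

def Par (w w' : W J) : Prop :=
  (∀ r, w'.2.1 r * w.1 = w.2.1 r * w'.1) ∧ w'.2.2 * w.1 = w.2.2 * w'.1

def Red (w : W J) : Prop := ∀ w' : W J, 1 ≤ w'.1 → Par w w' → w.1 ≤ w'.1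

omit [Fintype J] [DecidableEq J] in
theorem eq_of_par {w w' : W J} (h : Red w) (h' : Red w') (hq : 1 ≤ w.1) (hq' : 1 ≤ w'.1)
    (hp : Par w w') : w = w' := by
  have h1 := h w' hq' hp
  have h2 := h' w hq ⟨fun r => (hp.1 r).symm, hp.2.symm⟩
  have h3 : w.1 = w'.1 := le_antisymm h1 h2
  have h4 : (w'.1 : ℤ) ≠ 0 := by exact_mod_cast (by omega : w'.1 ≠ 0)
  obtain ⟨p1, p2⟩ := hp
  rw [h3] at p1 p2
  exact Prod.ext h3 (Prod.ext (funext fun r => (mul_right_cancel₀ h4 (p1 r)).symm)
    (mul_right_cancel₀ h4 p2).symm)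

structure Good (α : J → ℝ) (a : J → ℕ) (b Λ : ℕ) (B : ℝ) (w : W J) : Prop where
  red : Red w
  q1 : b < Λ * w.1
  q2 : w.1 ≤ b
  n1 : ∀ r, |(w.2.1 r : ℝ)| ≤ a r
  c1 : |cen α w| ≤ B

theorem pair_fixed (α : J → ℝ) (a a' : J → ℕ) (b b' Λ : ℕ) (B η : ℝ) (q q' : ℕ) (hq : 1 ≤ q)
    (hq' : 1 ≤ q') (hB : 0 ≤ B) (ha : ∀ r, b ≤ a r) (ha' : ∀ r, b' ≤ a' r)
    (P : Finset (W J × W J))
    (hP : ∀ p ∈ P, p.1.1 = q ∧ p.2.1 = q' ∧ Good α a b Λ B p.1 ∧ Good α a' b' Λ B p.2 ∧ p.1 ≠ p.2 ∧
      |cen α p.1 - cen α p.2| * (q * q') < η) (N : ℝ) (hN0 : 0 ≤ N)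
    (hN : ∀ S : Finset ((J → ℤ) × ℤ), (0 : (J → ℤ) × ℤ) ∉ S →
      (∀ s ∈ S, (∀ r, |(s.1 r : ℝ)| ≤ (a' r * b + a r * b') / Nat.gcd q q') ∧
        |form α s.1 + s.2| < η / Nat.gcd q q') →
      (S.card : ℝ) ≤ N * ∏ r, (((a' r : ℝ) * b + a r * b') / Nat.gcd q q')) :
    (P.card : ℝ) ≤ N * (∏ r, (6 * (Λ : ℝ) * a r * a' r)) * ((2 * B + 1) * Nat.gcd q q') := by
  classical
  rcases P.eq_empty_or_nonempty with rfl | ⟨p0, hp0⟩
  · simp only [Finset.card_empty, Nat.cast_zero]; positivity
  obtain ⟨e1, e2, G1, G2, -, -⟩ := hP p0 hp0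
  have k1 : (b : ℝ) ≤ Λ * q := by rw [← e1]; exact_mod_cast G1.q1.le
  have k2 : (q : ℝ) ≤ b := by rw [← e1]; exact_mod_cast G1.q2
  have k3 : (b' : ℝ) ≤ Λ * q' := by rw [← e2]; exact_mod_cast G2.q1.le
  have k4 : (q' : ℝ) ≤ b' := by rw [← e2]; exact_mod_cast G2.q2
  have hg : 0 < Nat.gcd q q' := Nat.gcd_pos_of_pos_left _ hq
  have hgc : Nat.gcd q' q = Nat.gcd q q' := Nat.gcd_comm _ _
  have d1 : ((Nat.gcd q q' : ℕ) : ℤ) ∣ q := Int.natCast_dvd_natCast.2 (Nat.gcd_dvd_left _ _)
  have d2 : ((Nat.gcd q q' : ℕ) : ℤ) ∣ q' := Int.natCast_dvd_natCast.2 (Nat.gcd_dvd_right _ _)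
  set g := Nat.gcd q q' with hgdef
  have hg1 : (1 : ℝ) ≤ g := by exact_mod_cast hg
  have hq1 : (1 : ℝ) ≤ q := by exact_mod_cast hq
  have hq1' : (1 : ℝ) ≤ q' := by exact_mod_cast hq'
  have hΛ : (1 : ℝ) ≤ Λ := by nlinarith
  have har : ∀ r, (b : ℝ) ≤ a r := fun r => by exact_mod_cast ha r
  have har' : ∀ r, (b' : ℝ) ≤ a' r := fun r => by exact_mod_cast ha' r
  have dd : ∀ x y : ℤ, (x * q - y * q') / g * g = x * q - y * q' := fun x y =>
    Int.ediv_mul_cancel (dvd_sub (d1.mul_left _) (d2.mul_left _))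
  have ddr : ∀ x y : ℤ, (((x * q - y * q') / g : ℤ) : ℝ) = ((x : ℝ) * q - y * q') / g := fun x y => by
    rw [eq_div_iff (by linarith)]
    exact_mod_cast dd x y
  let f : W J × W J → (J → ℤ) × ℤ := fun p =>
    (fun r => (p.2.2.1 r * q - p.1.2.1 r * q') / g, (p.2.2.2 * q - p.1.2.2 * q') / g)
  let c : J → ℝ := fun r => 3 * Λ * g * min ((a r : ℝ) / b) (a' r / b')
  have hc0 : ∀ r, 0 ≤ c r := fun r => by simp only [c]; positivity
  have hS := hN (P.image f) (by
    intro h
    obtain ⟨p, hp, h0⟩ := Finset.mem_image.1 h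
    obtain ⟨e1, e2, G1, G2, hne, -⟩ := hP p hp
    apply hne
    refine eq_of_par G1.red G2.red (by omega) (by omega) ⟨fun r => ?_, ?_⟩
    · have h1 := congrFun (congrArg Prod.fst h0) r
      have h2 := dd (p.2.2.1 r) (p.1.2.1 r)
      simp only [f, Prod.fst_zero, Pi.zero_apply] at h1
      rw [h1] at h2
      rw [e1, e2]
      linarith
    · have h1 := congrArg Prod.snd h0
      have h2 := dd (p.2.2.2) (p.1.2.2)
      simp only [f, Prod.snd_zero] at h1
      rw [h1] at h2
      rw [e1, e2]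
      linarith) (by
    intro s hs
    obtain ⟨p, hp, rfl⟩ := Finset.mem_image.1 hs
    obtain ⟨e1, e2, G1, G2, hne, hlt⟩ := hP p hp
    refine ⟨fun r => ?_, ?_⟩
    · simp only [f]
      rw [ddr, abs_div, abs_of_pos (show (0 : ℝ) < g by linarith)]
      gcongr
      refine (abs_sub _ _).trans ?_
      rw [abs_mul, abs_mul, Nat.abs_cast, Nat.abs_cast]
      gcongr
      · exact G2.n1 r
      · exact G1.n1 r
    · have : form α (f p).1 + (f p).2 = (cen α p.1 - cen α p.2) * (q * q') / g := by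
        simp only [f, form, cen, ddr, e1, e2]
        rw [show ∑ r, ((p.2.2.1 r : ℝ) * q - p.1.2.1 r * q') / g * α r =
          ((∑ r, (p.2.2.1 r : ℝ) * α r) * q - (∑ r, (p.1.2.1 r : ℝ) * α r) * q') / g by
            rw [Finset.sum_mul, Finset.sum_mul, ← Finset.sum_sub_distrib, Finset.sum_div]
            exact Finset.sum_congr rfl fun r _ => by ring]
        field_simp
        ring
      rw [this, abs_div, abs_mul, abs_of_pos (show (0 : ℝ) < g by linarith),
        abs_of_pos (show (0 : ℝ) < q * q' by positivity)]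
      gcongr)
  have hfib : ∀ s ∈ P.image f, ((P.filter fun p => f p = s).card : ℝ) ≤
      (∏ r, c r) * ((2 * B + 1) * g) := by
    intro s _
    set Ps := P.filter fun p => f p = s
    let f2 : W J × W J → J → ℤ × ℤ := fun p r => (p.1.2.1 r, p.2.2.1 r)
    refine (card_le_real Ps (Fintype.piFinset fun r => Ps.image fun p => f2 p r) f2
      (fun p hp => Fintype.mem_piFinset.2 fun r => Finset.mem_image_of_mem _ hp)
      (fun _ => (2 * B + 1) * g) ?_).trans ?_
    · intro v _
      set F := Ps.filter fun p => f2 p = v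
      rw [← Finset.card_image_of_injOn (f := fun p : W J × W J => (p.1.2.2, p.2.2.2)) (s := F)]
      · refine (line_count q q' hq (s.2 * g) _ (-form α fun r => (v r).1) (B * q) (by positivity)
          ?_ ?_).trans ?_
        · intro x hx
          obtain ⟨p, hp, rfl⟩ := Finset.mem_image.1 hx
          obtain ⟨hp1, hp2⟩ := Finset.mem_filter.1 hp
          obtain ⟨e1, e2, G1, G2, -, -⟩ := hP p (Finset.mem_filter.1 hp1).1
          have h1 := G1.c1
          rw [cen, e1, abs_div, abs_neg, Nat.abs_cast, div_le_iff₀ (by linarith)] at h1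
          subst hp2
          simpa [f2, add_comm] using h1
        · intro x hx
          obtain ⟨p, hp, rfl⟩ := Finset.mem_image.1 hx
          obtain ⟨hp1, -⟩ := Finset.mem_filter.1 hp
          rw [← (Finset.mem_filter.1 hp1).2]
          exact (dd _ _).symm
        · rw [← hgdef, show 2 * (B * q) * g / q = 2 * B * g by field_simp]
          nlinarith
      · intro p hp p' hp' h
        obtain ⟨hp1, hp2⟩ := Finset.mem_filter.1 hp
        obtain ⟨hp1', hp2'⟩ := Finset.mem_filter.1 hp'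
        obtain ⟨e1, e2, -⟩ := hP p (Finset.mem_filter.1 hp1).1
        obtain ⟨e1', e2', -⟩ := hP p' (Finset.mem_filter.1 hp1').1
        have h3 := hp2.trans hp2'.symm
        simp only [Prod.mk.injEq] at h
        refine Prod.ext (Prod.ext (e1.trans e1'.symm) (Prod.ext (funext fun r => ?_) h.1))
          (Prod.ext (e2.trans e2'.symm) (Prod.ext (funext fun r => ?_) h.2))
        · exact congrArg Prod.fst (congrFun h3 r)
        · exact congrArg Prod.snd (congrFun h3 r)
    · rw [Finset.sum_const, nsmul_eq_mul, Fintype.card_piFinset]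
      push_cast
      gcongr with r
      have hm : ∀ x ∈ Ps.image fun p => f2 p r, x.2 * q - x.1 * q' = s.1 r * g := by
        intro x hx
        obtain ⟨p, hp, rfl⟩ := Finset.mem_image.1 hx
        rw [← (Finset.mem_filter.1 hp).2]
        exact (dd _ _).symm
      have key : ∀ x y z : ℝ, 1 ≤ z → z ≤ y → y ≤ Λ * z → y ≤ x → 2 * x * g / z + 1 ≤ 3 * Λ * g * (x / y) := by
        intro x y z h1 h2 h3 h4
        have h5 : 1 ≤ x / y := by rw [le_div_iff₀ (by linarith)]; linarith
        have h6 : x / z ≤ Λ * (x / y) := by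
          rw [← mul_div_assoc, div_le_div_iff₀ (by linarith) (by linarith)]
          nlinarith
        have h7 : 1 ≤ Λ * g * (x / y) := one_le_mul_of_one_le_of_one_le
          (one_le_mul_of_one_le_of_one_le hΛ hg1) h5
        rw [show 2 * x * g / z = 2 * g * (x / z) by ring]
        nlinarith
      simp only [c]
      rw [mul_min_of_nonneg _ _ (by positivity)]
      apply le_min
      · refine (line_count q q' hq _ _ 0 (a r) (by positivity) ?_ hm).trans (key _ _ _ hq1 k2 k1 (har r))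
        intro x hx
        obtain ⟨p, hp, rfl⟩ := Finset.mem_image.1 hx
        simpa using (hP p (Finset.mem_filter.1 hp).1).2.2.1.n1 r
      · rw [← Finset.card_image_of_injective _ Prod.swap_injective]
        refine (line_count q' q hq' (-(s.1 r * g)) _ 0 (a' r) (by positivity) ?_ ?_).trans ?_
        · intro x hx
          obtain ⟨y, hy, rfl⟩ := Finset.mem_image.1 hx
          obtain ⟨p, hp, rfl⟩ := Finset.mem_image.1 hy
          simpa using (hP p (Finset.mem_filter.1 hp).1).2.2.2.1.n1 r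
        · intro x hx
          obtain ⟨y, hy, rfl⟩ := Finset.mem_image.1 hx
          have := hm y hy
          simp only [Prod.fst_swap, Prod.snd_swap]
          linarith
        · rw [hgc]
          exact key _ _ _ hq1' k4 k3 (har' r)
  refine (card_le_real P (P.image f) f (fun p hp => Finset.mem_image_of_mem _ hp) _ hfib).trans ?_
  rw [Finset.sum_const, nsmul_eq_mul]
  calc ((P.image f).card : ℝ) * ((∏ r, c r) * ((2 * B + 1) * g))
      ≤ (N * ∏ r, (((a' r : ℝ) * b + a r * b') / g)) * ((∏ r, c r) * ((2 * B + 1) * g)) := by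
        have := Finset.prod_nonneg fun r (_ : r ∈ Finset.univ) => hc0 r
        gcongr
    _ = N * (∏ r, (((a' r : ℝ) * b + a r * b') / g * c r)) * ((2 * B + 1) * g) := by
        rw [Finset.prod_mul_distrib (f := fun r => ((a' r : ℝ) * b + a r * b') / g) (g := c)]; ring
    _ ≤ _ := by
        refine mul_le_mul_of_nonneg_right (mul_le_mul_of_nonneg_left (Finset.prod_le_prod
          (fun r _ => mul_nonneg (by positivity) (hc0 _)) fun r _ => ?_) hN0) (by positivity)
        simp only [c]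
        have hb : (0 : ℝ) < b := by linarith
        have hb' : (0 : ℝ) < b' := by linarith
        have h1 : (a' r : ℝ) * b * min ((a r : ℝ) / b) (a' r / b') ≤ a r * a' r := by
          calc _ ≤ (a' r : ℝ) * b * (a r / b) := by gcongr; exact min_le_left _ _
            _ = _ := by field_simp
        have h2 : (a r : ℝ) * b' * min ((a r : ℝ) / b) (a' r / b') ≤ a r * a' r := by
          calc _ ≤ (a r : ℝ) * b' * (a' r / b') := by gcongr; exact min_le_right _ _
            _ = _ := by field_simp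
        calc _ = 3 * Λ * ((a' r : ℝ) * b * min ((a r : ℝ) / b) (a' r / b') +
              (a r : ℝ) * b' * min ((a r : ℝ) / b) (a' r / b')) := by field_simp
          _ ≤ 3 * Λ * ((a r : ℝ) * a' r + a r * a' r) := by gcongr
          _ = _ := by ring

theorem pairs [Nonempty J] {α : J → ℝ} {κ : ℝ} {k : ℕ} (hD : Dio α κ k) (hκ : 0 < κ)
    (a a' : J → ℕ) (b b' Λ Γ Lk E J0 : ℕ) (B : ℝ) (hB : 0 ≤ B) (hb1 : 1 ≤ b) (hbb : b ≤ b')
    (ha : ∀ r, b' ≤ a r) (ha' : ∀ r, b' ≤ a' r) (hΓ : (∏ r, a r) * b ^ 2 = Γ)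
    (hΓ' : (∏ r, a' r) * b' ^ 2 = Γ) (hLk : 4 ≤ Lk) (hE1 : 1 ≤ E)
    (hE : 2 * (4 * (Γ : ℝ) ^ 2) ^ Fintype.card J ≤ 2 ^ E) (hJ : 4 * (E : ℝ) ^ k / κ < J0)
    (hJ' : (J0 : ℝ) ≤ 6 * E ^ k / κ) (hbig : 2 * J0 * (3 * Lk * E ^ k) * E ^ k ≤ b')
    (P : Finset (W J × W J))
    (hP : ∀ p ∈ P, Good α a b Λ B p.1 ∧ Good α a' b' Λ B p.2 ∧ p.1 ≠ p.2 ∧
      |cen α p.1 - cen α p.2| < 1 / (Γ * Lk)) :
    (P.card : ℝ) ≤ (2 * B + 1) * (6 * Λ) ^ Fintype.card J *
      (8 * 5 ^ Fintype.card J + 4 * 2 ^ Fintype.card J / κ) * Γ / Lk := by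
  classical
  have hpc : (4 * (Γ : ℝ) ^ 2) ^ Fintype.card J = ∏ _r : J, (4 * (Γ : ℝ) ^ 2) := by
    rw [Finset.prod_const, Finset.card_univ]
  set μ := Fintype.card J
  have hb1' : (1 : ℝ) ≤ b := by exact_mod_cast hb1
  have hbb' : (b : ℝ) ≤ b' := by exact_mod_cast hbb
  have har : ∀ r, (b' : ℝ) ≤ a r := fun r => by exact_mod_cast ha r
  have har' : ∀ r, (b' : ℝ) ≤ a' r := fun r => by exact_mod_cast ha' r
  have hLk' : (4 : ℝ) ≤ Lk := by exact_mod_cast hLk
  have hE1' : (1 : ℝ) ≤ E := by exact_mod_cast hE1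
  have hEk : (1 : ℝ) ≤ (E : ℝ) ^ k := one_le_pow₀ hE1'
  set A : ℝ := ∏ r, (a r : ℝ) with hA
  set A' : ℝ := ∏ r, (a' r : ℝ) with hA'
  have hΓr : A * b ^ 2 = Γ := by rw [hA]; exact_mod_cast hΓ
  have hΓr' : A' * b' ^ 2 = Γ := by rw [hA']; exact_mod_cast hΓ'
  have haA : ∀ r, (a r : ℝ) ≤ A := fun r => by
    rw [hA]
    exact_mod_cast Finset.single_le_prod' (f := a) (fun r _ => by have := ha r; omega) (Finset.mem_univ r)
  have haA' : ∀ r, (a' r : ℝ) ≤ A' := fun r => by
    rw [hA']
    exact_mod_cast Finset.single_le_prod' (f := a') (fun r _ => by have := ha' r; omega) (Finset.mem_univ r)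
  obtain ⟨r0⟩ := ‹Nonempty J›
  have hA1 : (b' : ℝ) ≤ A := (har r0).trans (haA r0)
  have hA1' : (b' : ℝ) ≤ A' := (har' r0).trans (haA' r0)
  have hAΓ : A ≤ Γ := by rw [← hΓr]; exact le_mul_of_one_le_right (by linarith) (one_le_pow₀ hb1')
  have hAΓ' : A' ≤ Γ := by
    rw [← hΓr']; exact le_mul_of_one_le_right (by linarith) (one_le_pow₀ (by linarith))
  have hA0 : 0 < A := by linarith
  have hΓ0 : (0 : ℝ) < Γ := by linarith
  set η : ℝ := 1 / (Γ * Lk) * (b * b') with hη
  have hη0 : 0 < η := by have : (0 : ℝ) < b' := by linarith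
                         positivity
  have hη1 : η = b' / (A * b * Lk) := by rw [hη, ← hΓr]; field_simp
  have hη4 : η ≤ 1 / 4 := by
    rw [hη1, div_le_div_iff₀ (by positivity) (by norm_num)]
    have : A * 4 ≤ A * b * Lk := by
      rw [mul_assoc]; gcongr; nlinarith
    linarith
  have hJ0 : 1 ≤ J0 := by
    have : (0 : ℝ) < J0 := lt_of_le_of_lt (by positivity) hJ
    exact_mod_cast this
  have hEk' : 1 ≤ E ^ k := Nat.one_le_pow _ _ hE1
  set τ := 3 * Lk * E ^ k with hτ
  have hτ2 : 2 ≤ τ := by rw [hτ]; nlinarith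
  have hτb : τ ≤ b' := le_trans (by nlinarith [Nat.mul_le_mul hJ0 hEk']) hbig
  set K : ℝ := (2 * B + 1) * (6 * Λ) ^ μ * (A * A') * η with hK
  have hK0 : 0 ≤ K := by have : 0 < A' := by linarith
                         positivity
  refine (card_le_real P (Finset.Icc 1 b ×ˢ Finset.Icc 1 b') (fun p => (p.1.1, p.2.1)) ?_
    (fun x => K * (8 * 5 ^ μ) +
      if E ^ k < Nat.gcd x.1 x.2 then K * (4 * 2 ^ μ * E ^ k / κ) else 0) ?_).trans ?_
  · intro p hp
    obtain ⟨G1, G2, -⟩ := hP p hp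
    simp only [Finset.mem_product, Finset.mem_Icc]
    refine ⟨⟨Nat.pos_of_ne_zero fun h => ?_, G1.q2⟩, Nat.pos_of_ne_zero fun h => ?_, G2.q2⟩
    · have := G1.q1; rw [h] at this; omega
    · have := G2.q1; rw [h] at this; omega
  · rintro ⟨q, q'⟩ hx
    simp only [Finset.mem_product, Finset.mem_Icc] at hx
    have hg : 0 < Nat.gcd q q' := Nat.gcd_pos_of_pos_left _ hx.1.1
    have hgb : Nat.gcd q q' ≤ b' := (Nat.gcd_le_right q hx.2.1).trans hx.2.2
    have hfix := fun N hN0 hN => pair_fixed α a a' b b' Λ B η q q' hx.1.1 hx.2.1 hB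
      (fun r => hbb.trans (ha r)) ha' (P.filter fun p => (p.1.1, p.2.1) = (q, q')) (by
        intro p hp
        obtain ⟨hp1, hp2⟩ := Finset.mem_filter.1 hp
        simp only [Prod.mk.injEq] at hp2
        obtain ⟨G1, G2, hne, hlt⟩ := hP p hp1
        refine ⟨hp2.1, hp2.2, G1, G2, hne, ?_⟩
        have h1 : (q : ℝ) ≤ b := by exact_mod_cast hx.1.2
        have h2 : (q' : ℝ) ≤ b' := by exact_mod_cast hx.2.2
        have h3 : (0 : ℝ) < q := by exact_mod_cast hx.1.1
        have h4 : (0 : ℝ) < q' := by exact_mod_cast hx.2.1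
        calc _ < 1 / (Γ * Lk) * ((q : ℝ) * q') := by gcongr
          _ ≤ _ := by rw [hη]; gcongr) N hN0 hN
    set g := Nat.gcd q q'
    have hg1 : (1 : ℝ) ≤ g := by exact_mod_cast hg
    have hgb' : (g : ℝ) ≤ b' := by exact_mod_cast hgb
    have hM1 : ∀ r, (a r : ℝ) * (b' / g) ≤ ((a' r : ℝ) * b + a r * b') / g := fun r => by
      rw [← mul_div_assoc]
      gcongr
      have : (0 : ℝ) ≤ a' r * b := by positivity
      linarith
    have hbg : (1 : ℝ) ≤ b' / g := by rw [le_div_iff₀ (by linarith)]; linarith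
    have hM : ∀ r, (1 : ℝ) ≤ ((a' r : ℝ) * b + a r * b') / g := fun r =>
      le_trans (one_le_mul_of_one_le_of_one_le (by linarith [har r]) hbg) (hM1 r)
    have hηg : η / g ≤ 1 / 4 := (div_le_self hη0.le hg1).trans hη4
    have hprod : ∏ r, (6 * (Λ : ℝ) * a r * a' r) = (6 * Λ) ^ μ * (A * A') := by
      rw [Finset.prod_mul_distrib, Finset.prod_mul_distrib, Finset.prod_const, Finset.card_univ]
      ring
    split_ifs with hgE
    · refine (hfix (4 * (η / g) * 2 ^ μ * E ^ k / κ) (by positivity) fun S hS0 hS => ?_).trans ?_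
      · refine (crude hD hκ _ E (η / g) hM (le_trans ?_ hE) hE1 (by positivity) (by linarith)
          S hS0 hS).trans (le_of_eq ?_)
        · rw [hpc]
          refine mul_le_mul_of_nonneg_left (Finset.prod_le_prod
            (fun r _ => by linarith [hM r]) fun r _ => ?_) (by norm_num)
          have h1 : ((a' r : ℝ) * b + a r * b') / g ≤ a' r * b + a r * b' :=
            div_le_self (by positivity) hg1
          have h2 : (a' r : ℝ) * b ≤ Γ * Γ :=
            mul_le_mul (by linarith [haA' r]) (by linarith) (by positivity) hΓ0.le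
          have h3 : (a r : ℝ) * b' ≤ Γ * Γ :=
            mul_le_mul (by linarith [haA r]) (by linarith) (by positivity) hΓ0.le
          nlinarith
        · rw [Finset.prod_mul_distrib, Finset.prod_const, Finset.card_univ]
          ring
      · rw [hprod]
        have : 0 ≤ K * (8 * 5 ^ μ) := by positivity
        refine le_trans (le_of_eq ?_) (le_add_of_nonneg_left this)
        rw [hK]
        field_simp
    · refine (hfix (8 * (η / g) * 5 ^ μ) (by positivity) fun S _ hS => ?_).trans ?_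
      · refine (refined α _ (η / g) hM (by positivity) hηg (fun y hy => ?_) S hS).trans (le_of_eq ?_)
        · have hgE' : (g : ℝ) ≤ (E : ℝ) ^ k := by exact_mod_cast not_lt.1 hgE
          have hτr : (τ : ℝ) = 3 * Lk * E ^ k := by rw [hτ]; push_cast; ring
          have hτ2' : (2 : ℝ) ≤ τ := by exact_mod_cast hτ2
          have hτb' : (τ : ℝ) ≤ b' := by exact_mod_cast hτb
          have hXr : ∀ r, ((a r * τ : ℕ) : ℝ) = a r * τ := fun r => by push_cast; ring
          have hbig' : ((2 * J0 : ℕ) : ℝ) * τ * E ^ k ≤ b' := by exact_mod_cast hbig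
          obtain ⟨n, l, hn, hl⟩ := cover hD hκ (fun r => a r * τ) E J0 (fun r => by
            have := ha r
            nlinarith) (le_trans (by
              rw [hpc]
              refine mul_le_mul_of_nonneg_left (Finset.prod_le_prod
                (fun r _ => by positivity) fun r _ => ?_) (by norm_num)
              have h2 : (a r : ℝ) * τ ≤ Γ * Γ :=
                mul_le_mul (by linarith [haA r]) (by linarith) (by positivity) hΓ0.le
              rw [hXr]
              nlinarith) hE) hE1 hJ y hy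
          refine ⟨n, l, fun r => (hn r).trans (le_trans ?_ (hM1 r)), hl.trans ?_⟩
          · rw [hXr, mul_left_comm]
            gcongr
            rw [le_div_iff₀ (by linarith)]
            refine le_trans ?_ hbig'
            gcongr
          · have h1 : A * τ ≤ ∏ r, ((a r * τ : ℕ) : ℝ) := by
              simp only [hXr]
              rw [Finset.prod_mul_distrib, Finset.prod_const, Finset.card_univ]
              gcongr
              exact le_self_pow₀ (by linarith) Fintype.card_ne_zero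
            have h2 : (J0 : ℝ) ≤ 6 * E ^ k / κ := hJ'
            calc ((2 * J0 : ℕ) : ℝ) * (κ / (4 * (∏ r, ((a r * τ : ℕ) : ℝ)) * E ^ k))
                ≤ (2 * (6 * E ^ k / κ)) * (κ / (4 * (A * τ) * E ^ k)) := by
                  push_cast at h1 ⊢
                  gcongr
              _ = 1 / (A * Lk * E ^ k) := by rw [hτr]; field_simp; ring
              _ ≤ η / g := by
                  rw [hη1, div_div, div_le_div_iff₀ (by positivity) (by positivity)]
                  calc 1 * (A * b * Lk * g) ≤ 1 * (A * b' * Lk * E ^ k) := by gcongr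
                    _ = _ := by ring
        · rw [Finset.prod_mul_distrib, Finset.prod_const, Finset.card_univ]
          ring
      · rw [hprod, add_zero, hK]
        apply le_of_eq
        field_simp
  · rw [Finset.sum_add_distrib, Finset.sum_const, ← Finset.sum_filter, Finset.sum_const,
      nsmul_eq_mul, nsmul_eq_mul, Finset.card_product, Nat.card_Icc, Nat.card_Icc]
    have h1 := gcd_count b b' (E ^ k) hEk'
    push_cast at h1 ⊢
    calc _ ≤ (b : ℝ) * b' * (K * (8 * 5 ^ μ)) + b * b' / E ^ k * (K * (4 * 2 ^ μ * E ^ k / κ)) := by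
          gcongr
      _ = (2 * B + 1) * (6 * Λ) ^ μ * (8 * 5 ^ μ + 4 * 2 ^ μ / κ) * ((A * b ^ 2) * (A' * b' ^ 2)) /
            (Γ * Lk) := by
          rw [hK, hη]
          field_simp
      _ = _ := by
          rw [hΓr, hΓr']
          field_simp

end Pool.Agent.H.MP_04276e_nt
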