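import Pool.Agent.H.MP_04276e_nt.C

set_option autoImplicit false
open MeasureTheory Filter Set Topology
open scoped ENNReal

namespace Pool.Agent.H.MP_04276e_nt

variable {J : Type} [Fintype J] [DecidableEq J]

theorem card_Icc_le (x0 ρ : ℝ) (hρ : 0 ≤ ρ) : ∃ F : Finset ℤ, (∀ l : ℤ, |(l : ℝ) - x0| ≤ ρ → l ∈ F) ∧
    (F.card : ℝ) ≤ 2 * ρ + 1 := by
  refine ⟨Finset.Icc ⌈x0 - ρ⌉ ⌊x0 + ρ⌋, fun l hl => ?_, ?_⟩
  · rw [Finset.mem_Icc, Int.ceil_le, Int.le_floor]
    constructor <;> linarith [(abs_le.1 hl).1, (abs_le.1 hl).2]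
  · have := sep (Finset.Icc ⌈x0 - ρ⌉ ⌊x0 + ρ⌋) (fun l => (l : ℝ)) x0 ρ 1 one_pos hρ (fun l hl => by
      rw [Finset.mem_Icc, Int.ceil_le, Int.le_floor] at hl
      rw [abs_le]
      constructor <;> linarith [hl.1, hl.2]) (fun x _ y _ h => by
      exact_mod_cast Int.one_le_abs (sub_ne_zero.2 h))
    simpa using this

theorem vol_line (x B ρ : ℝ) (q : ℕ) (hq : 1 ≤ q) (hB : 0 ≤ B) (hρ : 0 ≤ ρ) (hρ1 : ρ ≤ 1) :
    volume {t : ℝ | t ∈ Icc (-B) B ∧ ∃ l : ℤ, |x + l + q * t| < ρ} ≤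
      ENNReal.ofReal ((2 * B + 3) * (2 * ρ)) := by
  have hq' : (1 : ℝ) ≤ q := by exact_mod_cast hq
  obtain ⟨F, hF, hc⟩ := card_Icc_le (-x) (B * q + 1) (by positivity)
  calc _ ≤ volume (⋃ l ∈ F, Ioo ((-x - l - ρ) / q) ((-x - l + ρ) / q)) := by
        apply measure_mono
        rintro t ⟨ht, l, hl⟩
        rw [abs_lt] at hl
        refine mem_iUnion₂.2 ⟨l, hF l ?_, ?_, ?_⟩
        · rw [abs_le]
          constructor <;> nlinarith [ht.1, ht.2, hl.1, hl.2]
        · rw [div_lt_iff₀ (by linarith)]; linarith [hl.1]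
        · rw [lt_div_iff₀ (by linarith)]; linarith [hl.2]
    _ ≤ ∑ l ∈ F, volume (Ioo ((-x - l - ρ) / q) ((-x - l + ρ) / q)) := measure_biUnion_finset_le _ _
    _ = ∑ l ∈ F, ENNReal.ofReal (2 * ρ / q) := Finset.sum_congr rfl fun l _ => by
        rw [Real.volume_Ioo]; congr 1; ring
    _ = ENNReal.ofReal (F.card * (2 * ρ / q)) := by
        rw [Finset.sum_const, nsmul_eq_mul, ENNReal.ofReal_mul (by positivity), ENNReal.ofReal_natCast]
    _ ≤ _ := by
        apply ENNReal.ofReal_le_ofReal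
        calc (F.card : ℝ) * (2 * ρ / q) ≤ ((2 * B + 3) * q) * (2 * ρ / q) := by
              gcongr; nlinarith
          _ = _ := by field_simp

def Box (α : J → ℝ) (B ρ : ℝ) (x : J → ℕ) (y : ℕ) : Set ℝ :=
  {t | t ∈ Icc (-B) B ∧ ∃ (n : J → ℤ) (q : ℕ) (l : ℤ), (∀ r, |(n r : ℝ)| ≤ x r) ∧ 1 ≤ q ∧ q ≤ y ∧
    |form α n + l + q * t| < ρ}

theorem vol_box (α : J → ℝ) (B ρ : ℝ) (x : J → ℕ) (y : ℕ) (hx : ∀ r, 1 ≤ x r) (hB : 0 ≤ B)
    (hρ : 0 ≤ ρ) (hρ1 : ρ ≤ 1) :
    volume (Box α B ρ x y) ≤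
      ENNReal.ofReal (3 ^ Fintype.card J * ((∏ r, (x r : ℝ)) * y) * ((2 * B + 3) * (2 * ρ))) := by
  choose F hF hc using fun r => card_Icc_le 0 (x r) (by positivity)
  calc _ ≤ volume (⋃ p ∈ Fintype.piFinset F ×ˢ Finset.Icc 1 y,
          {t : ℝ | t ∈ Icc (-B) B ∧ ∃ l : ℤ, |form α p.1 + l + (p.2 : ℕ) * t| < ρ}) := by
        apply measure_mono
        rintro t ⟨ht, n, q, l, h1, h2, h3, h4⟩
        refine mem_iUnion₂.2 ⟨(n, q), ?_, ht, l, h4⟩
        simp only [Finset.mem_product, Fintype.mem_piFinset, Finset.mem_Icc]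
        exact ⟨fun r => hF r _ (by simpa using h1 r), h2, h3⟩
    _ ≤ ∑ p ∈ Fintype.piFinset F ×ˢ Finset.Icc 1 y, volume
          {t : ℝ | t ∈ Icc (-B) B ∧ ∃ l : ℤ, |form α p.1 + l + (p.2 : ℕ) * t| < ρ} :=
        measure_biUnion_finset_le _ _
    _ ≤ ∑ p ∈ Fintype.piFinset F ×ˢ Finset.Icc 1 y, ENNReal.ofReal ((2 * B + 3) * (2 * ρ)) :=
        Finset.sum_le_sum fun p hp => vol_line _ _ _ _
          (Finset.mem_Icc.1 (Finset.mem_product.1 hp).2).1 hB hρ hρ1
    _ ≤ _ := by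
        rw [Finset.sum_const, nsmul_eq_mul, ← ENNReal.ofReal_natCast,
          ← ENNReal.ofReal_mul (by positivity)]
        apply ENNReal.ofReal_le_ofReal
        gcongr
        rw [Finset.card_product, Fintype.card_piFinset, Nat.card_Icc, ← mul_assoc]
        push_cast
        gcongr
        rw [← Finset.card_univ, ← Finset.prod_const, ← Finset.prod_mul_distrib]
        refine Finset.prod_le_prod (fun r _ => by positivity) fun r _ => (hc r).trans ?_
        have : (1 : ℝ) ≤ x r := by exact_mod_cast hx r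
        linarith

theorem dirichlet (α : J → ℝ) (t : ℝ) (a : J → ℕ) (b : ℕ) (hA : 2 ≤ ∏ r, a r) (hb : 1 ≤ b) :
    ∃ (n : J → ℤ) (q : ℕ) (l : ℤ), (n ≠ 0 ∨ q ≠ 0) ∧ (∀ r, |(n r : ℝ)| ≤ a r) ∧ q ≤ b ∧
      |form α n + l + q * t| < 1 / ((∏ r, (a r : ℝ)) * b) := by
  have hA' : (2 : ℝ) ≤ ∏ r, (a r : ℝ) := by exact_mod_cast hA
  have hb' : (1 : ℝ) ≤ b := by exact_mod_cast hb
  by_contra hcon
  push Not at hcon
  have key : ∀ (n n' : J → ℕ) (q q' : ℕ), (∀ r, n r ≤ a r) → (∀ r, n' r ≤ a r) → q ≤ b → q' ≤ q →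
      (n, q) ≠ (n', q') → 1 / ((∏ r, (a r : ℝ)) * b) ≤
      |Int.fract (form α (fun r => n r) + q * t) - Int.fract (form α (fun r => n' r) + q' * t)| := by
    intro n n' q q' h1 h2 h3 h4 h5
    have := hcon ((fun r => (n r : ℤ)) - fun r => (n' r : ℤ)) (q - q')
      (⌊form α (fun r => n' r) + q' * t⌋ - ⌊form α (fun r => n r) + q * t⌋) (by
        by_contra h
        push Not at h
        apply h5
        congr 1
        · ext r
          have := congrFun h.1 r
          simp only [Pi.sub_apply, Pi.zero_apply] at this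
          omega
        · omega) (fun r => by
        simp only [Pi.sub_apply]
        push_cast
        have a1 : (n r : ℝ) ≤ a r := by exact_mod_cast h1 r
        have a2 : (n' r : ℝ) ≤ a r := by exact_mod_cast h2 r
        rw [abs_le]
        constructor <;> linarith [(Nat.cast_nonneg (n r) : (0 : ℝ) ≤ n r),
          (Nat.cast_nonneg (n' r) : (0 : ℝ) ≤ n' r)]) (by omega)
    refine this.trans (le_of_eq ?_)
    congr 1
    rw [form_sub]
    push_cast [Nat.cast_sub h4]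
    simp only [Int.fract]
    ring
  have := sep ((Fintype.piFinset fun r => Finset.range (a r + 1)) ×ˢ Finset.range (b + 1))
    (fun p => Int.fract (form α (fun r => p.1 r) + p.2 * t)) (1 / 2) (1 / 2)
    (1 / ((∏ r, (a r : ℝ)) * b)) (by positivity) (by norm_num)
    (fun p _ => by
      rw [abs_le]
      constructor <;> linarith [Int.fract_nonneg (form α (fun r => p.1 r) + p.2 * t),
        Int.fract_lt_one (form α (fun r => p.1 r) + p.2 * t)]) (by
      rintro ⟨n, q⟩ hp ⟨n', q'⟩ hp' hne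
      simp only [Finset.mem_product, Finset.mem_range, Fintype.mem_piFinset, Nat.lt_succ_iff] at hp hp'
      rcases le_total q' q with h | h
      · exact key n n' q q' hp.1 hp'.1 hp.2 h hne
      · rw [abs_sub_comm]
        exact key n' n q' q hp'.1 hp.1 hp'.2 h hne.symm)
  simp only [Finset.card_product, Finset.card_range, Fintype.card_piFinset] at this
  push_cast at this
  have h1 : ∏ r, (a r : ℝ) ≤ ∏ r, ((a r : ℝ) + 1) :=
    Finset.prod_le_prod (fun r _ => by positivity) fun r _ => by linarith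
  have h2 : 2 * (1 / 2) / (1 / ((∏ r, (a r : ℝ)) * b)) = (∏ r, (a r : ℝ)) * b := by field_simp
  rw [h2] at this
  nlinarith

omit [DecidableEq J] in
theorem exists_red (α : J → ℝ) (t ρ : ℝ) (n : J → ℤ) (q : ℕ) (l : ℤ) (hq : 1 ≤ q)
    (h : |form α n + l + q * t| < ρ) :
    ∃ w : W J, Red w ∧ 1 ≤ w.1 ∧ w.1 ≤ q ∧ (∀ r, |(w.2.1 r : ℝ)| ≤ |(n r : ℝ)|) ∧
      |form α w.2.1 + w.2.2 + w.1 * t| < ρ := by
  obtain ⟨w, ⟨h1, h2⟩, hmin⟩ := (measure (Prod.fst : W J → ℕ)).wf.has_min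
    {w' : W J | 1 ≤ w'.1 ∧ Par (q, n, l) w'} ⟨(q, n, l), hq, fun _ => rfl, rfl⟩
  have hle : w.1 ≤ q := not_lt.1 (hmin (q, n, l) ⟨hq, fun _ => rfl, rfl⟩)
  have hq' : (0 : ℝ) < q := by exact_mod_cast hq
  have hw' : (0 : ℝ) < w.1 := by exact_mod_cast h1
  have hle' : (w.1 : ℝ) / q ≤ 1 := by rw [div_le_one hq']; exact_mod_cast hle
  have hn : ∀ r, (w.2.1 r : ℝ) = n r * (w.1 / q) := fun r => by
    have : (w.2.1 r : ℝ) * q = n r * w.1 := by exact_mod_cast h2.1 r
    field_simp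
    linarith
  have hl : (w.2.2 : ℝ) = l * (w.1 / q) := by
    have : (w.2.2 : ℝ) * q = l * w.1 := by exact_mod_cast h2.2
    field_simp
    linarith
  refine ⟨w, fun w' hw1 hp => not_lt.1 (hmin w' ⟨hw1, fun r => ?_, ?_⟩), h1, hle, fun r => ?_, ?_⟩
  · have h3 : (w.1 : ℤ) ≠ 0 := by exact_mod_cast (by omega : w.1 ≠ 0)
    apply mul_right_cancel₀ h3
    have a1 := hp.1 r
    have a2 := h2.1 r
    simp only at a2 ⊢
    linear_combination (q : ℤ) * a1 + (w'.1 : ℤ) * a2
  · have h3 : (w.1 : ℤ) ≠ 0 := by exact_mod_cast (by omega : w.1 ≠ 0)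
    apply mul_right_cancel₀ h3
    have a1 := hp.2
    have a2 := h2.2
    simp only at a2 ⊢
    linear_combination (q : ℤ) * a1 + (w'.1 : ℤ) * a2
  · rw [hn, abs_mul, abs_of_pos (div_pos hw' hq')]
    exact mul_le_of_le_one_right (abs_nonneg _) hle'
  · have : form α w.2.1 + w.2.2 + w.1 * t = (form α n + l + q * t) * (w.1 / q) := by
      have h3 : form α w.2.1 = form α n * (w.1 / q) := by
        rw [form, form, Finset.sum_mul]
        exact Finset.sum_congr rfl fun r _ => by rw [hn]; ring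
      rw [hl, h3]
      field_simp
    rw [this, abs_mul, abs_of_pos (div_pos hw' hq')]
    exact (mul_le_of_le_one_right (abs_nonneg _) hle').trans_lt h

theorem good_finite (α : J → ℝ) (a : J → ℕ) (b Λ : ℕ) (B : ℝ) (hB : 0 ≤ B) :
    {w : W J | Good α a b Λ B w}.Finite := by
  choose F hF hc using fun r => card_Icc_le 0 (a r) (by positivity)
  obtain ⟨G, hG, -⟩ := card_Icc_le 0 (B * b + ∑ r, a r * |α r|) (by positivity)
  refine (Finset.range (b + 1) ×ˢ Fintype.piFinset F ×ˢ G).finite_toSet.subset fun w hw => ?_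
  simp only [Finset.coe_product, mem_prod, Finset.mem_coe, Finset.mem_range, Fintype.mem_piFinset]
  refine ⟨Nat.lt_succ_of_le hw.q2, fun r => hF r _ (by simpa using hw.n1 r), hG _ ?_⟩
  have hq : (0 : ℝ) < w.1 := by
    have := hw.q1
    exact_mod_cast Nat.pos_of_ne_zero fun h => by rw [h] at this; omega
  have h1 := hw.c1
  rw [cen, abs_div, abs_neg, Nat.abs_cast, div_le_iff₀ hq] at h1
  have h2 : |form α w.2.1| ≤ ∑ r, a r * |α r| := by
    refine (Finset.abs_sum_le_sum_abs _ _).trans (Finset.sum_le_sum fun r _ => ?_)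
    rw [abs_mul]
    gcongr
    exact hw.n1 r
  have h3 : B * w.1 ≤ B * b := by gcongr; exact hw.q2
  rw [sub_zero, show (w.2.2 : ℝ) = (form α w.2.1 + w.2.2) - form α w.2.1 by ring]
  refine (abs_sub _ _).trans ?_
  linarith

theorem stage [Nonempty J] {α : J → ℝ} {κ : ℝ} {k : ℕ} (hD : Dio α κ k) (hκ : 0 < κ) (Z : Set ℝ)
    (B : ℝ) (hB : 0 ≤ B) (hZ : Z ⊆ Icc (-B) B) (a0 : J → ℕ) (b0 Λ E : ℕ) (hΛ : 2 ≤ Λ)
    (ha0 : ∀ r, 1 ≤ a0 r) (hb0 : 1 ≤ b0) (hE1 : 1 ≤ E)
    (hE : 2 * ∏ r, ((Λ * a0 r : ℕ) : ℝ) ≤ 2 ^ E) (hbig : 2 * (E : ℝ) ^ k / κ ≤ (Λ * b0 : ℕ))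
    (S : Finset (W J))
    (hS : ∀ w, Good α (fun r => Λ * a0 r) (Λ * b0) Λ (B + 1) w →
      (∀ r, ((Λ * a0 r : ℕ) : ℝ) < Λ * |(w.2.1 r : ℝ)|) →
      (∃ t ∈ Z, |t - cen α w| < Λ / ((∏ r, ((Λ * a0 r : ℕ) : ℝ)) * (Λ * b0 : ℕ) ^ 2)) → w ∈ S) :
    volume Z ≤ ENNReal.ofReal ((Fintype.card J + 1) * (3 ^ Fintype.card J * (4 * B + 6) / Λ) +
      S.card * (2 * (Λ / ((∏ r, ((Λ * a0 r : ℕ) : ℝ)) * (Λ * b0 : ℕ) ^ 2)))) := by
  set a : J → ℕ := fun r => Λ * a0 r with ha
  set b := Λ * b0 with hb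
  set A : ℝ := ∏ r, (a r : ℝ) with hA
  have ha2 : ∀ r, 2 ≤ a r := fun r => by have := ha0 r; simp only [a]; nlinarith
  have hb2 : 2 ≤ b := by rw [hb]; nlinarith
  obtain ⟨r0⟩ := ‹Nonempty J›
  have hA2 : 2 ≤ ∏ r, a r := (ha2 r0).trans
    (Finset.single_le_prod' (f := a) (fun r _ => by have := ha2 r; omega) (Finset.mem_univ r0))
  have hA2' : (2 : ℝ) ≤ A := by rw [hA]; exact_mod_cast hA2
  have hb2' : (2 : ℝ) ≤ b := by exact_mod_cast hb2
  have hΛ' : (2 : ℝ) ≤ Λ := by exact_mod_cast hΛ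
  have hE' : (1 : ℝ) ≤ E := by exact_mod_cast hE1
  have hbr : (b : ℝ) = Λ * b0 := by rw [hb]; push_cast; ring
  set ρ := 1 / (A * b) with hρ
  have hρ0 : 0 < ρ := by positivity
  have hρ1 : ρ ≤ 1 := by rw [hρ, div_le_one (by positivity)]; nlinarith
  set R := Λ / (A * b ^ 2) with hR
  have hsub : Z ⊆ (Box α B ρ a b0 ∪ ⋃ r, Box α B ρ (Function.update a r (a0 r)) b) ∪
      ⋃ w ∈ S, Ioo (cen α w - R) (cen α w + R) := by
    intro t ht
    obtain ⟨n, q, l, h0, h1, h2, h3⟩ := dirichlet α t a b hA2 (by omega)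
    have hq : 1 ≤ q := by
      by_contra h
      have hq0 : q = 0 := by omega
      subst hq0
      have h4 := hD (fun r => a r) E (fun r => by exact_mod_cast ha2 r) hE n (by simpa using h0) h1 l
      simp only [Nat.cast_zero, zero_mul, add_zero] at h3
      have h5 := h4.trans_lt h3
      rw [← hA, div_lt_div_iff₀ (by positivity) (by positivity)] at h5
      rw [div_le_iff₀ hκ] at hbig
      nlinarith
    obtain ⟨w, hw1, hw2, hw3, hw4, hw5⟩ := exists_red α t _ n q l hq h3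
    have hw6 : ∀ r, |(w.2.1 r : ℝ)| ≤ a r := fun r => (hw4 r).trans (h1 r)
    by_cases c1 : b < Λ * w.1
    swap
    · refine Or.inl (Or.inl ⟨hZ ht, w.2.1, w.1, w.2.2, hw6, hw2, ?_, hw5⟩)
      exact Nat.le_of_mul_le_mul_left (not_lt.1 c1) (by omega)
    by_cases c2 : ∀ r, (a r : ℝ) < Λ * |(w.2.1 r : ℝ)|
    swap
    · push Not at c2
      obtain ⟨r, hr⟩ := c2
      refine Or.inl (Or.inr (mem_iUnion.2 ⟨r, hZ ht, w.2.1, w.1, w.2.2, fun r' => ?_, hw2,
        hw3.trans h2, hw5⟩))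
      by_cases hr' : r' = r
      · subst hr'
        rw [Function.update_self]
        simp only [a] at hr
        push_cast at hr
        exact le_of_mul_le_mul_left hr (by linarith)
      · rw [Function.update_of_ne hr']
        exact hw6 r'
    have hw2' : (1 : ℝ) ≤ w.1 := by exact_mod_cast hw2
    have c1' : (b : ℝ) < Λ * w.1 := by exact_mod_cast c1
    have h6 : |t - cen α w| < ρ / w.1 := by
      have : t - cen α w = (form α w.2.1 + w.2.2 + w.1 * t) / w.1 := by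
        rw [cen]; field_simp; ring
      rw [this, abs_div, Nat.abs_cast]
      gcongr
    have h7 : ρ / w.1 ≤ R := by
      rw [hρ, hR, div_div, div_le_div_iff₀ (by positivity) (by positivity)]
      calc 1 * (A * b ^ 2) = A * b * b := by ring
        _ ≤ A * b * (Λ * w.1) := by gcongr
        _ = _ := by ring
    have h8 : ρ / w.1 ≤ 1 := (div_le_self hρ0.le hw2').trans hρ1
    right
    refine mem_iUnion₂.2 ⟨w, hS w ⟨hw1, c1, hw3.trans h2, hw6, ?_⟩ c2 ⟨t, ht, h6.trans_le h7⟩, ?_⟩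
    · have h9 := abs_lt.1 (h6.trans_le h8)
      have h10 := hZ ht
      rw [abs_le]
      constructor <;> linarith [h9.1, h9.2, h10.1, h10.2]
    · have h9 := abs_lt.1 (h6.trans_le h7)
      constructor <;> linarith [h9.1, h9.2]
  set K : ℝ := 3 ^ Fintype.card J * (4 * B + 6) / Λ with hK
  have hK0 : 0 ≤ K := by positivity
  have v1 : volume (Box α B ρ a b0) ≤ ENNReal.ofReal K := by
    refine (vol_box α B ρ a b0 (fun r => by have := ha2 r; omega) hB hρ0.le hρ1).trans (le_of_eq ?_)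
    congr 1
    rw [← hA, hK, hρ, hbr]
    have : (0 : ℝ) < b0 := by exact_mod_cast hb0
    field_simp
    ring
  have v2 : ∀ r, volume (Box α B ρ (Function.update a r (a0 r)) b) ≤ ENNReal.ofReal K := by
    intro r
    refine (vol_box α B ρ _ b (fun r' => ?_) hB hρ0.le hρ1).trans (le_of_eq ?_)
    · by_cases h : r' = r
      · subst h; simpa using ha0 r'
      · rw [Function.update_of_ne h]; have := ha2 r'; omega
    congr 1
    have h1 : (∏ r', (Function.update a r (a0 r) r' : ℝ)) = A / Λ := by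
      rw [eq_div_iff (by linarith), hA]
      norm_cast
      rw [Finset.prod_update_of_mem (Finset.mem_univ r), Finset.sdiff_singleton_eq_erase,
        ← Finset.mul_prod_erase _ a (Finset.mem_univ r)]
      simp only [a]
      ring
    rw [h1, hK, hρ]
    field_simp
    ring
  calc volume Z ≤ _ := measure_mono hsub
    _ ≤ (volume (Box α B ρ a b0) + ∑ r, volume (Box α B ρ (Function.update a r (a0 r)) b)) +
        ∑ w ∈ S, volume (Ioo (cen α w - R) (cen α w + R)) := by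
        refine (measure_union_le _ _).trans (add_le_add ((measure_union_le _ _).trans
          (add_le_add le_rfl (measure_iUnion_fintype_le _ _))) (measure_biUnion_finset_le _ _))
    _ ≤ (ENNReal.ofReal K + ∑ _r : J, ENNReal.ofReal K) + ∑ _w ∈ S, ENNReal.ofReal (2 * R) := by
        gcongr with r _ w _
        · exact v2 r
        · rw [Real.volume_Ioo]; apply le_of_eq; congr 1; ring
    _ = _ := by
        rw [Finset.sum_const, Finset.sum_const, Finset.card_univ, nsmul_eq_mul, nsmul_eq_mul,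
          ENNReal.ofReal_add (by positivity) (by positivity), add_mul, one_mul,
          ENNReal.ofReal_add (by positivity) hK0, ENNReal.ofReal_mul (Nat.cast_nonneg _),
          ENNReal.ofReal_mul (Nat.cast_nonneg _), ENNReal.ofReal_natCast, ENNReal.ofReal_natCast,
          add_comm (ENNReal.ofReal K)]

theorem union_lower {ι : Type} [DecidableEq ι] (S : Finset ι) (c : ι → ℝ) (h : ℝ) (hh : 0 < h) :
    ENNReal.ofReal (h * (S.card -
      ((S ×ˢ S).filter fun p => p.1 ≠ p.2 ∧ |c p.1 - c p.2| < h).card)) ≤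
      volume (⋃ w ∈ S, Ioo (c w - h / 2) (c w + h / 2)) := by
  classical
  set P := (S ×ˢ S).filter fun p => p.1 ≠ p.2 ∧ |c p.1 - c p.2| < h
  set S' := S \ P.image Prod.fst
  have h1 : (S.card : ℝ) - P.card ≤ S'.card := by
    have h2 := Finset.le_card_sdiff (P.image Prod.fst) S
    have h3 := Finset.card_image_le (s := P) (f := Prod.fst)
    have h4 : S.card ≤ S'.card + P.card := by simp only [S']; omega
    have h5 : (S.card : ℝ) ≤ S'.card + P.card := by exact_mod_cast h4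
    linarith
  calc _ ≤ ENNReal.ofReal (S'.card * h) := by
        apply ENNReal.ofReal_le_ofReal
        rw [mul_comm]
        gcongr
    _ = ∑ w ∈ S', volume (Ioo (c w - h / 2) (c w + h / 2)) := by
        rw [Finset.sum_congr rfl fun w _ => show volume (Ioo (c w - h / 2) (c w + h / 2)) =
          ENNReal.ofReal h by rw [Real.volume_Ioo]; congr 1; ring, Finset.sum_const, nsmul_eq_mul,
          ENNReal.ofReal_mul (Nat.cast_nonneg _), ENNReal.ofReal_natCast]
    _ = volume (⋃ w ∈ S', Ioo (c w - h / 2) (c w + h / 2)) := by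
        refine (measure_biUnion_finset ?_ fun _ _ => measurableSet_Ioo).symm
        intro w hw w' hw' hne
        rw [Function.onFun, Set.disjoint_left]
        intro y hy hy'
        have h2 := Finset.mem_sdiff.1 hw
        apply h2.2
        refine Finset.mem_image.2 ⟨(w, w'), Finset.mem_filter.2 ⟨Finset.mem_product.2
          ⟨h2.1, (Finset.mem_sdiff.1 hw').1⟩, hne, ?_⟩, rfl⟩
        rw [abs_lt]
        constructor <;> linarith [hy.1, hy.2, hy'.1, hy'.2]
    _ ≤ _ := measure_mono (biUnion_subset_biUnion_left fun w hw => (Finset.mem_sdiff.1 hw).1)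

end Pool.Agent.H.MP_04276e_nt
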