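import Pool.Agent.H.MP_04276e_nt.D

set_option autoImplicit false
open MeasureTheory Filter Set Topology
open scoped ENNReal

namespace Pool.Agent.H.MP_04276e_nt

variable {J : Type} [Fintype J] [DecidableEq J]

theorem exps (r0 : J) (u : ℕ) : ∃ (i : (J → ℕ) → J → ℕ) (j : (J → ℕ) → ℕ),
    (∀ s, (∀ r, s r < u) → (∑ r, i s r) + 2 * j s = (3 * Fintype.card J + 3) * u ∧
      (∀ r, 2 * u ≤ i s r) ∧ u ≤ j s ∧ j s < 2 * u) ∧
    ∀ s s', i s = i s' → j s = j s' → s = s' := by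
  refine ⟨fun s r => if r = r0 then (3 * Fintype.card J + 3) * u - 2 * (u + s r0) -
    ∑ r' ∈ Finset.univ.erase r0, (2 * u + s r') else 2 * u + s r, fun s => u + s r0, ?_, ?_⟩
  · intro s hs
    have h1 : ∑ r' ∈ Finset.univ.erase r0, (2 * u + s r') ≤ (Fintype.card J - 1) * (3 * u) := by
      have := Finset.sum_le_card_nsmul (Finset.univ.erase r0) (fun r' => 2 * u + s r') (3 * u)
        fun r _ => by have := hs r; omega
      simpa using this
    have h2 : 1 ≤ Fintype.card J := Fintype.card_pos_iff.2 ⟨r0⟩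
    obtain ⟨m, hm⟩ : ∃ m, Fintype.card J = m + 1 := ⟨Fintype.card J - 1, by omega⟩
    rw [hm] at h1 ⊢
    have h3 : (3 * (m + 1) + 3) * u = m * (3 * u) + 6 * u := by ring
    simp only [Nat.add_sub_cancel] at h1
    have h4 := hs r0
    beta_reduce
    refine ⟨?_, fun r => ?_, by omega, by omega⟩
    · rw [← Finset.add_sum_erase _ _ (Finset.mem_univ r0), if_pos rfl,
        Finset.sum_congr rfl fun r hr => if_neg (Finset.ne_of_mem_erase hr)]
      omega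
    · split_ifs <;> omega
  · intro s s' h1 h2
    ext r
    by_cases h : r = r0
    · subst h; simpa using h2
    · have := congrFun h1 r
      simpa [h] using this

theorem pow_eq {Λ i i' : ℕ} (hΛ : 2 ≤ Λ) {x : ℝ} (h1 : (Λ : ℝ) ^ i < Λ * x) (h2 : x ≤ Λ ^ i)
    (h1' : (Λ : ℝ) ^ i' < Λ * x) (h2' : x ≤ Λ ^ i') : i = i' := by
  have hΛ' : (1 : ℝ) < Λ := by exact_mod_cast (by omega : 1 < Λ)
  have a1 : (Λ : ℝ) ^ i < Λ ^ (i' + 1) := h1.trans_le (by rw [pow_succ']; gcongr)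
  have a2 : (Λ : ℝ) ^ i' < Λ ^ (i + 1) := h1'.trans_le (by rw [pow_succ']; gcongr)
  rw [pow_lt_pow_iff_right₀ hΛ'] at a1 a2
  omega

theorem null [Nonempty J] {α : J → ℝ} {κ : ℝ} {k : ℕ} (hD : Dio α κ k) (hκ : 0 < κ) (hκ1 : κ ≤ 1)
    (hk : k = Fintype.card J + 1) (Z : Set ℝ) (B : ℝ) (hB : 0 ≤ B) (hZ : Z ⊆ Icc (-B) B) (T : ℕ)
    (hole : ∀ t ∈ Z, ∀ (X : J → ℕ) (y e : ℕ) (n : J → ℤ) (q : ℕ) (l : ℤ), (∀ r, 2 ≤ X r) →
      (∀ r, |(n r : ℝ)| ≤ X r) → 2 ≤ y → q ≤ y → T < q → (∏ r, (X r : ℝ)) * y ≤ 2 ^ e →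
      1 / ((∏ r, (X r : ℝ)) * y * e ^ k) ≤ |form α n + l + q * t|) : volume Z = 0 := by
  classical
  by_contra hne
  have hfin : volume Z ≠ ⊤ := ne_top_of_le_ne_top (by simp) (measure_mono hZ)
  set z := (volume Z).toReal with hzdef
  have hz : 0 < z := ENNReal.toReal_pos hne hfin
  have hzv : volume Z = ENNReal.ofReal z := (ENNReal.ofReal_toReal hfin).symm
  have hZne : Z.Nonempty := nonempty_of_measure_ne_zero hne
  obtain ⟨r0⟩ := ‹Nonempty J›
  have hμ1 : 1 ≤ Fintype.card J := Fintype.card_pos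
  set μ := Fintype.card J with hμ
  obtain ⟨Λ, hΛ0⟩ := exists_nat_ge (max 2 ((μ + 1) * (3 ^ μ * (4 * B + 6)) * 2 / z))
  have hΛ' : (2 : ℝ) ≤ Λ := (le_max_left _ _).trans hΛ0
  have hΛ : 2 ≤ Λ := by exact_mod_cast hΛ'
  have hΛz : (μ + 1) * (3 ^ μ * (4 * B + 6) / Λ) ≤ z / 2 := by
    have := (le_max_right _ _).trans hΛ0
    rw [div_le_iff₀ hz] at this
    rw [← mul_div_assoc, div_le_div_iff₀ (by linarith) (by norm_num)]
    linarith
  obtain ⟨c1, hc1⟩ : ∃ x : ℕ, x = 3 * μ + 3 := ⟨_, rfl⟩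
  obtain ⟨c0, hc0⟩ : ∃ x : ℕ, x = c1 * Λ := ⟨_, rfl⟩
  have hc02 : 2 ≤ c0 := by rw [hc0, hc1]; nlinarith
  have hc02' : (2 : ℝ) ≤ c0 := by exact_mod_cast hc02
  set C1 : ℝ := (2 * (B + 1) + 1) * (6 * Λ) ^ μ * (8 * 5 ^ μ + 4 * 2 ^ μ / κ) with hC1
  have hC10 : 0 ≤ C1 := by positivity
  refine annuli Z B hZ hZne (4 * Λ * c0 ^ k) (z / (8 * Λ * c0 ^ k)) k (by positivity)
    (fun u => 1 / ((Λ : ℝ) ^ (c1 * u) * (c0 * u) ^ k) / 2) (fun u => 2 * (Λ / (Λ : ℝ) ^ (c1 * u)))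
    (fun u hu => by have : (0 : ℝ) < u := by exact_mod_cast hu
                    positivity) ?_ ?_ ?_
  · intro u u' hu huu h
    have hu' : (0 : ℝ) < u := by exact_mod_cast hu
    obtain ⟨d, rfl⟩ := Nat.exists_eq_add_of_le huu
    rw [Nat.add_sub_cancel_left]
    rw [mul_add, pow_add, div_div, ← mul_div_assoc, div_le_div_iff₀ (by positivity) (by positivity)] at h
    have h1 : (Λ : ℝ) ^ (c1 * d) ≤ 4 * Λ * c0 ^ k * u ^ k := by
      apply le_of_mul_le_mul_left _ (show (0 : ℝ) < Λ ^ (c1 * u) by positivity)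
      calc _ = 1 * ((Λ : ℝ) ^ (c1 * u) * Λ ^ (c1 * d)) := by ring
        _ ≤ _ := h
        _ = _ := by rw [mul_pow]; ring
    refine le_trans ?_ h1
    calc (2 : ℝ) ^ d ≤ 2 ^ (c1 * d) := pow_le_pow_right₀ (by norm_num) (by rw [hc1]; nlinarith)
      _ ≤ _ := by gcongr
  · have h1 : Tendsto (fun u : ℕ => 2 * (Λ * ((Λ : ℝ) ^ c1)⁻¹ ^ u)) atTop (𝓝 (2 * (Λ * 0))) := by
      refine (Tendsto.const_mul _ (tendsto_pow_atTop_nhds_zero_of_lt_one (by positivity) ?_)).const_mul _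
      exact inv_lt_one_of_one_lt₀ (one_lt_pow₀ (by linarith) (by omega))
    simp only [mul_zero] at h1
    refine h1.congr fun u => ?_
    rw [inv_pow, ← pow_mul, div_eq_mul_inv]
  have ev1 : ∀ᶠ u : ℕ in atTop, 36 / κ * (((4 * μ + 1) * c0 : ℕ) : ℝ) ^ (4 * k) * u ^ (4 * k) ≤ 2 ^ u := by
    have h1 := (tendsto_pow_const_div_const_pow_of_one_lt (4 * k) (show (1 : ℝ) < 2 by norm_num)).const_mul
      (36 / κ * (((4 * μ + 1) * c0 : ℕ) : ℝ) ^ (4 * k))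
    rw [mul_zero] at h1
    filter_upwards [h1.eventually_le_const one_pos] with u hu
    rwa [← mul_div_assoc, div_le_one (by positivity)] at hu
  have ev2 : ∀ᶠ u : ℕ in atTop, 8 * Λ * C1 / z ≤ u := tendsto_natCast_atTop_atTop.eventually_ge_atTop _
  filter_upwards [ev1, ev2, eventually_ge_atTop 1, eventually_ge_atTop T] with u hu1 hu2 hu huT
  have hu' : (1 : ℝ) ≤ u := by exact_mod_cast hu
  obtain ⟨i, j, hij, hinj⟩ := exps r0 u
  rw [← hμ, ← hc1] at hij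
  set I := Fintype.piFinset fun _ : J => Finset.range u with hI
  have hIs : ∀ s ∈ I, ∀ r, s r < u := fun s hs r =>
    Finset.mem_range.1 (Fintype.mem_piFinset.1 hs r)
  have hIc : I.card = u ^ μ := by rw [hI, Fintype.card_piFinset]; simp [hμ]
  obtain ⟨e, he⟩ : ∃ x : ℕ, x = c0 * u := ⟨_, rfl⟩
  obtain ⟨E, hE⟩ : ∃ x : ℕ, x = (4 * μ + 1) * e := ⟨_, rfl⟩
  obtain ⟨Γ, hΓ⟩ : ∃ x : ℕ, x = Λ ^ (c1 * u) := ⟨_, rfl⟩
  obtain ⟨Lk, hLk⟩ : ∃ x : ℕ, x = e ^ k := ⟨_, rfl⟩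
  have he2 : 2 ≤ e := by rw [he]; nlinarith
  have hE1 : 1 ≤ E := by rw [hE]; nlinarith
  have heE : e ≤ E := by rw [hE]; nlinarith
  have hE1' : (1 : ℝ) ≤ E := by exact_mod_cast hE1
  have hEk : (1 : ℝ) ≤ (E : ℝ) ^ k := one_le_pow₀ hE1'
  have hLk4 : 4 ≤ Lk := by
    rw [hLk]
    calc 4 = 2 ^ 2 := by norm_num
      _ ≤ e ^ 2 := by gcongr
      _ ≤ e ^ k := Nat.pow_le_pow_right (by omega) (by omega)
  have hLk4' : (4 : ℝ) ≤ Lk := by exact_mod_cast hLk4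
  have hΓ1 : 1 ≤ Γ := hΓ ▸ Nat.one_le_pow _ _ (by omega)
  have hΓ1' : (1 : ℝ) ≤ Γ := by exact_mod_cast hΓ1
  have hΓe : Γ ≤ 2 ^ e := by
    calc Γ ≤ (2 ^ Λ) ^ (c1 * u) := by rw [hΓ]; gcongr; exact Nat.lt_two_pow_self.le
      _ = _ := by rw [← pow_mul, he, hc0]; congr 1; ring
  have hΓe' : (Γ : ℝ) ≤ 2 ^ e := by exact_mod_cast hΓe
  have hΓE : 2 * (4 * (Γ : ℝ) ^ 2) ^ μ ≤ 2 ^ E := by
    calc 2 * (4 * (Γ : ℝ) ^ 2) ^ μ ≤ 2 * (4 * (2 ^ e) ^ 2) ^ μ := by gcongr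
      _ = 2 ^ (1 + (2 + e * 2) * μ) := by
          rw [pow_add, pow_mul (2 : ℝ) (2 + e * 2), pow_add, pow_mul (2 : ℝ) e]; norm_num
      _ ≤ _ := pow_le_pow_right₀ (by norm_num) (by rw [hE]; nlinarith)
  obtain ⟨J0, hJ0⟩ : ∃ x : ℕ, x = ⌊4 * (E : ℝ) ^ k / κ⌋₊ + 1 := ⟨_, rfl⟩
  have hJ1 : 4 * (E : ℝ) ^ k / κ < J0 := by rw [hJ0]; push_cast; exact Nat.lt_floor_add_one _
  have hEκ : 1 ≤ (E : ℝ) ^ k / κ := by rw [le_div_iff₀ hκ]; linarith
  have hJ2 : (J0 : ℝ) ≤ 6 * E ^ k / κ := by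
    rw [hJ0]
    push_cast
    have := Nat.floor_le (show 0 ≤ 4 * (E : ℝ) ^ k / κ by positivity)
    have h7 : 4 * (E : ℝ) ^ k / κ = 4 * (E ^ k / κ) := by ring
    have h8 : 6 * (E : ℝ) ^ k / κ = 6 * (E ^ k / κ) := by ring
    linarith
  have hbig : 2 * J0 * (3 * Lk * E ^ k) * E ^ k ≤ 2 ^ u := by
    have h1 : (Lk : ℝ) ≤ E ^ k := by rw [hLk]; exact_mod_cast Nat.pow_le_pow_left heE k
    have h2 : (2 : ℝ) * J0 * (3 * Lk * E ^ k) * E ^ k ≤ 2 ^ u := by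
      calc (2 : ℝ) * J0 * (3 * Lk * E ^ k) * E ^ k ≤ 2 * (6 * E ^ k / κ) * (3 * E ^ k * E ^ k) * E ^ k := by
            gcongr
        _ = 36 / κ * E ^ (4 * k) := by rw [mul_comm 4 k, pow_mul]; ring
        _ = _ := by rw [hE, he]; push_cast; rw [← mul_assoc, mul_pow]; ring
        _ ≤ _ := hu1
    exact_mod_cast h2
  let a : (J → ℕ) → J → ℕ := fun s r => Λ * Λ ^ (i s r - 1)
  let b : (J → ℕ) → ℕ := fun s => Λ * Λ ^ (j s - 1)
  have ha : ∀ s ∈ I, ∀ r, a s r = Λ ^ i s r := fun s hs r => by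
    have := (hij s (hIs s hs)).2.1 r
    simp only [a]
    rw [← pow_succ']; congr 1; omega
  have hb : ∀ s ∈ I, b s = Λ ^ j s := fun s hs => by
    have := (hij s (hIs s hs)).2.2.1
    simp only [b]
    rw [← pow_succ']; congr 1; omega
  have hab : ∀ s ∈ I, (∏ r, a s r) * b s ^ 2 = Γ := fun s hs => by
    rw [Finset.prod_congr rfl fun r _ => ha s hs r, hb s hs, Finset.prod_pow_eq_pow_sum, ← pow_mul,
      ← pow_add, hΓ, ← (hij s (hIs s hs)).1, mul_comm]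
  have hab' : ∀ s ∈ I, (∏ r, (a s r : ℝ)) * (b s : ℝ) ^ 2 = Γ := fun s hs => by exact_mod_cast hab s hs
  have hba : ∀ s ∈ I, ∀ s' ∈ I, ∀ r, b s' ≤ a s r := fun s hs s' hs' r => by
    rw [ha s hs, hb s' hs']
    apply Nat.pow_le_pow_right (by omega)
    have := (hij s (hIs s hs)).2.1 r
    have := (hij s' (hIs s' hs')).2.2.2
    omega
  have hbu : ∀ s ∈ I, 2 ^ u ≤ b s := fun s hs => by
    rw [hb s hs]
    calc 2 ^ u ≤ 2 ^ j s := Nat.pow_le_pow_right (by omega) (hij s (hIs s hs)).2.2.1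
      _ ≤ _ := by gcongr
  have hb2 : ∀ s ∈ I, 2 ≤ b s := fun s hs =>
    le_trans (le_self_pow₀ (by norm_num) (by omega)) (hbu s hs)
  have hAb : ∀ s ∈ I, (∏ r, (a s r : ℝ)) * b s ≤ Γ := fun s hs => by
    rw [← hab' s hs]
    have : (2 : ℝ) ≤ b s := by exact_mod_cast hb2 s hs
    gcongr
    nlinarith
  obtain ⟨Ws, hWs⟩ : ∃ Ws : (J → ℕ) → Finset (W J), ∀ s w, w ∈ Ws s ↔ Good α (a s) (b s) Λ (B + 1) w ∧
      (∀ r, (a s r : ℝ) < Λ * |(w.2.1 r : ℝ)|) ∧ ∃ t ∈ Z, |t - cen α w| < Λ / Γ := by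
    refine ⟨fun s => (good_finite α (a s) (b s) Λ (B + 1) (by linarith)).toFinset.filter
      fun w => (∀ r, (a s r : ℝ) < Λ * |(w.2.1 r : ℝ)|) ∧ ∃ t ∈ Z, |t - cen α w| < Λ / Γ, ?_⟩
    intro s w
    simp
  have hcard : ∀ s ∈ I, z * Γ / (4 * Λ) ≤ (Ws s).card := by
    intro s hs
    have h1 := stage hD hκ Z B hB hZ (fun r => Λ ^ (i s r - 1)) (Λ ^ (j s - 1)) Λ E hΛ
      (fun r => Nat.one_le_pow _ _ (by omega)) (Nat.one_le_pow _ _ (by omega)) hE1 (by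
        refine le_trans ?_ hΓE
        have h2 : (∏ r, (a s r : ℝ)) ≤ Γ := by
          refine le_trans (le_mul_of_one_le_right (by positivity) ?_) (hAb s hs)
          exact_mod_cast (by have := hb2 s hs; omega : 1 ≤ b s)
        have h3 : (Γ : ℝ) ≤ (4 * Γ ^ 2) ^ μ :=
          le_trans (by nlinarith) (le_self_pow₀ (by nlinarith) (by omega))
        exact mul_le_mul_of_nonneg_left (h2.trans h3) (by norm_num)) (by
        have h2 : J0 ≤ b s := by
          refine le_trans ?_ (hbig.trans (hbu s hs))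
          have h3 : 1 ≤ E ^ k := Nat.one_le_pow _ _ hE1
          calc J0 = J0 * 1 * 1 := by ring
            _ ≤ 2 * J0 * (3 * Lk * E ^ k) * E ^ k := by gcongr <;> nlinarith
        have h3 : (J0 : ℝ) ≤ b s := by exact_mod_cast h2
        refine le_trans ?_ h3
        rw [mul_div_assoc] at hJ1 ⊢
        linarith) (Ws s) (fun w h1 h2 h3 => (hWs s w).2 ⟨h1, h2, by rwa [← hab' s hs]⟩)
    have h2 : (∏ r, ((Λ * Λ ^ (i s r - 1) : ℕ) : ℝ)) * ((Λ * Λ ^ (j s - 1) : ℕ) : ℝ) ^ 2 = Γ := hab' s hs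
    rw [h2, ← hμ] at h1
    have h9 : (0 : ℝ) ≤ (Ws s).card := Nat.cast_nonneg _
    generalize ((Ws s).card : ℝ) = x at h1 h9 ⊢
    rw [hzv, ENNReal.ofReal_le_ofReal_iff (by positivity)] at h1
    rw [div_le_iff₀ (by positivity)]
    have h3 : z / 2 ≤ x * (2 * (Λ / Γ)) := by linarith
    calc z * Γ = z / 2 * (2 * Γ) := by ring
      _ ≤ x * (2 * (Λ / Γ)) * (2 * Γ) := by gcongr
      _ = _ := by
        have : (Γ : ℝ) ≠ 0 := by linarith
        field_simp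
        ring
  obtain ⟨Wu, hWu⟩ : ∃ x, x = I.biUnion Ws := ⟨_, rfl⟩
  have hWc : u ^ μ * (z * Γ / (4 * Λ)) ≤ Wu.card := by
    rw [hWu, Finset.card_biUnion]
    · push_cast
      have := Finset.card_nsmul_le_sum I (fun s => ((Ws s).card : ℝ)) _ hcard
      rwa [hIc, nsmul_eq_mul, Nat.cast_pow] at this
    · intro s hs s' hs' hss
      rw [Function.onFun, Finset.disjoint_left]
      intro w hw hw'
      obtain ⟨G, h1, -⟩ := (hWs s w).1 hw
      obtain ⟨G', h1', -⟩ := (hWs s' w).1 hw'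
      apply hss
      apply hinj
      · ext r
        have a1 := h1 r
        have a2 := G.n1 r
        have a3 := h1' r
        have a4 := G'.n1 r
        rw [ha s hs] at a1 a2
        rw [ha s' hs'] at a3 a4
        push_cast at a1 a2 a3 a4
        exact pow_eq hΛ a1 a2 a3 a4
      · have a1 := G.q1
        have a2 := G.q2
        have a3 := G'.q1
        have a4 := G'.q2
        rw [hb s hs] at a1 a2
        rw [hb s' hs'] at a3 a4
        exact pow_eq (x := w.1) hΛ (by exact_mod_cast a1) (by exact_mod_cast a2) (by exact_mod_cast a3)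
          (by exact_mod_cast a4)
  obtain ⟨h, hh⟩ : ∃ x : ℝ, x = 1 / (Γ * Lk) := ⟨_, rfl⟩
  have hh0 : 0 < h := by rw [hh]; positivity
  have hP0 : ∀ s ∈ I, ∀ s' ∈ I, b s ≤ b s' → ∀ P : Finset (W J × W J),
      (∀ p ∈ P, p.1 ∈ Ws s ∧ p.2 ∈ Ws s' ∧ p.1 ≠ p.2 ∧ |cen α p.1 - cen α p.2| < h) →
      (P.card : ℝ) ≤ C1 * Γ / Lk := by
    intro s hs s' hs' hbb P hP
    exact pairs hD hκ (a s) (a s') (b s) (b s') Λ Γ Lk E J0 (B + 1) (by linarith)
      (by have := hb2 s hs; omega) hbb (hba s hs s' hs') (hba s' hs' s' hs') (hab s hs) (hab s' hs')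
      hLk4 hE1 hΓE hJ1 hJ2 (hbig.trans (hbu s' hs')) P fun p hp =>
        ⟨((hWs _ _).1 (hP p hp).1).1, ((hWs _ _).1 (hP p hp).2.1).1, hh ▸ (hP p hp).2.2⟩
  have hP1 : (((Wu ×ˢ Wu).filter fun p => p.1 ≠ p.2 ∧ |cen α p.1 - cen α p.2| < h).card : ℝ) ≤
      u ^ μ * u ^ μ * (C1 * Γ / Lk) := by
    let Q : (J → ℕ) × (J → ℕ) → Finset (W J × W J) := fun x =>
      (Ws x.1 ×ˢ Ws x.2).filter fun p => p.1 ≠ p.2 ∧ |cen α p.1 - cen α p.2| < h
    have h1 : ((Wu ×ˢ Wu).filter fun p => p.1 ≠ p.2 ∧ |cen α p.1 - cen α p.2| < h) ⊆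
        (I ×ˢ I).biUnion Q := by
      intro p hp
      obtain ⟨hp1, hp2⟩ := Finset.mem_filter.1 hp
      rw [hWu] at hp1
      obtain ⟨s, hs, hw⟩ := Finset.mem_biUnion.1 (Finset.mem_product.1 hp1).1
      obtain ⟨s', hs', hw'⟩ := Finset.mem_biUnion.1 (Finset.mem_product.1 hp1).2
      exact Finset.mem_biUnion.2 ⟨(s, s'), Finset.mem_product.2 ⟨hs, hs'⟩,
        Finset.mem_filter.2 ⟨Finset.mem_product.2 ⟨hw, hw'⟩, hp2⟩⟩
    have h2 : ∀ x ∈ I ×ˢ I, ((Q x).card : ℝ) ≤ C1 * Γ / Lk := by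
      intro x hx
      obtain ⟨hs, hs'⟩ := Finset.mem_product.1 hx
      rcases le_total (b x.1) (b x.2) with hbb | hbb
      · refine hP0 _ hs _ hs' hbb _ fun p hp => ?_
        obtain ⟨hp1, hp2⟩ := Finset.mem_filter.1 hp
        exact ⟨(Finset.mem_product.1 hp1).1, (Finset.mem_product.1 hp1).2, hp2⟩
      · rw [← Finset.card_image_of_injective _ Prod.swap_injective]
        refine hP0 _ hs' _ hs hbb _ fun p hp => ?_
        obtain ⟨p', hp', rfl⟩ := Finset.mem_image.1 hp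
        obtain ⟨hp1, hp2⟩ := Finset.mem_filter.1 hp'
        exact ⟨(Finset.mem_product.1 hp1).2, (Finset.mem_product.1 hp1).1, hp2.1.symm,
          by rw [abs_sub_comm]; exact hp2.2⟩
    calc _ ≤ ((∑ x ∈ I ×ˢ I, (Q x).card : ℕ) : ℝ) := by
          exact_mod_cast (Finset.card_le_card h1).trans Finset.card_biUnion_le
      _ ≤ _ := by
          push_cast
          have := Finset.sum_le_card_nsmul _ _ _ h2
          rwa [Finset.card_product, hIc, nsmul_eq_mul, Nat.cast_mul, Nat.cast_pow] at this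
  refine le_trans (ENNReal.ofReal_le_ofReal ?_) ((union_lower Wu (cen α) h hh0).trans (measure_mono ?_))
  · have hLr : (Lk : ℝ) = c0 ^ k * (u ^ μ * u) := by
      rw [hLk, he]; push_cast; rw [mul_pow, ← pow_succ, ← hk]
    have hck : (1 : ℝ) ≤ (c0 : ℝ) ^ k := one_le_pow₀ (by linarith)
    calc z / (8 * Λ * c0 ^ k) / u = z / (4 * Λ * c0 ^ k * u) - z / (8 * Λ * c0 ^ k * u) := by
          field_simp; ring
      _ ≤ z / (4 * Λ * c0 ^ k * u) - C1 / (c0 ^ k * c0 ^ k * u ^ 2) := by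
          gcongr ?_ - ?_
          rw [div_le_div_iff₀ (by positivity) (by positivity)]
          rw [div_le_iff₀ hz] at hu2
          calc C1 * (8 * Λ * c0 ^ k * u) = (8 * Λ * C1) * (1 * c0 ^ k * u) := by ring
            _ ≤ (u * z) * (c0 ^ k * c0 ^ k * u) := by gcongr
            _ = _ := by ring
      _ = h * (u ^ μ * (z * Γ / (4 * Λ)) - u ^ μ * u ^ μ * (C1 * Γ / Lk)) := by
          rw [hh, hLr]; field_simp
      _ ≤ _ := by gcongr
  · intro y hy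
    obtain ⟨w, hw, hy⟩ := mem_iUnion₂.1 hy
    rw [hWu] at hw
    obtain ⟨s, hs, hw⟩ := Finset.mem_biUnion.1 hw
    obtain ⟨G, -, t0, ht0, hR⟩ := (hWs s w).1 hw
    have hΓr : (Γ : ℝ) = Λ ^ (c1 * u) := by rw [hΓ]; push_cast; ring
    have hLr : (Lk : ℝ) = (c0 * u) ^ k := by rw [hLk, he]; push_cast; ring
    beta_reduce
    rw [mem_ofPred_eq, ← hΓr, ← hLr, ← hh]
    constructor
    · rw [Metric.le_infDist hZne]
      intro t ht
      have hqT : T < w.1 := by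
        have h1 : Λ ^ (j s - 1) < w.1 := Nat.lt_of_mul_lt_mul_left G.q1
        have h2 : 2 ^ (j s - 1) ≤ Λ ^ (j s - 1) := by gcongr
        have h3 : j s - 1 < 2 ^ (j s - 1) := Nat.lt_two_pow_self
        have h4 := (hij s (hIs s hs)).2.2.1
        omega
      have h1 := hole t ht (a s) (b s) e w.2.1 w.1 w.2.2 (fun r => (hb2 s hs).trans (hba s hs s hs r))
        G.n1 (hb2 s hs) G.q2 hqT ((hAb s hs).trans hΓe')
      have hq0 : (0 : ℝ) < w.1 := by exact_mod_cast (by omega : 0 < w.1)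
      have hqb : (w.1 : ℝ) ≤ b s := by exact_mod_cast G.q2
      have hb0 : (0 : ℝ) < b s := by linarith
      have h2 : h ≤ |t - cen α w| := by
        have : t - cen α w = (form α w.2.1 + w.2.2 + w.1 * t) / w.1 := by
          rw [cen]; field_simp; ring
        rw [this, abs_div, Nat.abs_cast, le_div_iff₀ hq0]
        refine le_trans ?_ h1
        calc h * w.1 ≤ h * b s := by gcongr
          _ = _ := by
            have hA0 : (0 : ℝ) < ∏ r, (a s r : ℝ) := Finset.prod_pos fun r _ => by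
              exact_mod_cast (by have := (hb2 s hs).trans (hba s hs s hs r); omega : 0 < a s r)
            rw [hh, ← hab' s hs, hLk]
            push_cast
            field_simp
      rw [Real.dist_eq]
      rcases abs_cases (t - cen α w) with h3 | h3 <;> rcases abs_cases (y - t) with h4 | h4 <;>
        linarith [hy.1, hy.2, h3.1, h4.1]
    · refine (Metric.infDist_le_dist_of_mem ht0).trans ?_
      have h1 : h ≤ Λ / Γ := by
        rw [hh, div_le_div_iff₀ (by positivity) (by positivity)]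
        have : (1 : ℝ) ≤ Λ * Lk := by nlinarith
        nlinarith
      rw [Real.dist_eq, abs_le]
      have h2 := abs_lt.1 hR
      constructor <;> linarith [hy.1, hy.2, h2.1, h2.2]

end Pool.Agent.H.MP_04276e_nt
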