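import Pool.Agent.H.MP_04276e_nt.E

set_option autoImplicit false
open MeasureTheory Filter Set Topology
open scoped ENNReal

namespace Pool.Agent.H.MP_04276e_nt

variable {J : Type} [Fintype J] [DecidableEq J]

noncomputable def psi (k : ℕ) (H : ℝ) : ℝ := 1 / (H * Real.log H ^ k)

noncomputable def ht (n : J → ℤ) : ℝ := ∏ r, max |(n r : ℝ)| 2

omit [DecidableEq J] in
theorem one_le_ht (n : J → ℤ) : 1 ≤ ht n :=
  Finset.one_le_prod fun r _ => le_trans (by norm_num) (le_max_right _ _)

theorem psi_pos (k : ℕ) {H : ℝ} (hH : 2 ≤ H) : 0 < psi k H := by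
  have : 0 < Real.log H := Real.log_pos (by linarith)
  unfold psi
  positivity

theorem psi_ge (k : ℕ) {H Y : ℝ} {e : ℕ} (hH : 2 ≤ H) (hY : H ≤ Y) (he : Y ≤ 2 ^ e) :
    1 / (Y * e ^ k) ≤ psi k H := by
  have h1 : 0 < Real.log H := Real.log_pos (by linarith)
  have h2 : Real.log H ≤ e := by
    calc Real.log H ≤ Real.log (2 ^ e) := Real.log_le_log (by linarith) (hY.trans he)
      _ = e * Real.log 2 := by simp
      _ ≤ e * 1 := by gcongr; linarith [Real.log_two_lt_d9]
      _ = e := mul_one _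
  unfold psi
  gcongr
  linarith

omit [DecidableEq J] in
theorem ht_le (n : J → ℤ) (X : J → ℝ) (h2 : ∀ r, 2 ≤ X r) (hn : ∀ r, |(n r : ℝ)| ≤ X r) :
    ht n ≤ ∏ r, X r :=
  Finset.prod_le_prod (fun r _ => by positivity) fun r _ => max_le (hn r) (h2 r)

omit [DecidableEq J] in
theorem dio_of_finite (α : J → ℝ) (k : ℕ)
    (hfin : {n : J → ℤ | |form α n - round (form α n)| < psi k (ht n * 2)}.Finite) :
    ∃ κ : ℝ, 0 < κ ∧ κ ≤ 1 ∧ Dio α κ k := by
  have hpos : ∀ n : J → ℤ, 0 < psi k (ht n * 2) := fun n => psi_pos k (by linarith [one_le_ht n])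
  have hne : ∀ n : J → ℤ, n ≠ 0 → 0 < |form α n - round (form α n)| := by
    intro n hn
    rw [abs_pos, sub_ne_zero]
    intro h
    refine hfin.not_infinite (infinite_of_injective_forall_mem (f := fun j : ℤ => j • n)
      (smul_left_injective ℤ hn) fun j => ?_)
    have h1 : form α (j • n) = ((j * round (form α n) : ℤ) : ℝ) := by
      push_cast
      rw [← h]
      simp [form, Finset.mul_sum, mul_assoc]
    simp only [mem_ofPred_eq]
    rw [h1, round_intCast, sub_self, abs_zero]
    exact hpos _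
  have hev : ∀ᶠ κ : ℝ in 𝓝[>] 0, ∀ n ∈ hfin.toFinset, n ≠ 0 →
      κ * psi k (ht n * 2) ≤ |form α n - round (form α n)| := by
    rw [Finset.eventually_all]
    intro n _
    by_cases hn : n = 0
    · exact Eventually.of_forall fun _ h => absurd hn h
    have h1 : Tendsto (fun κ : ℝ => κ * psi k (ht n * 2)) (𝓝[>] 0) (𝓝 (0 * psi k (ht n * 2))) :=
      ((continuous_id.mul continuous_const).tendsto 0).mono_left nhdsWithin_le_nhds
    rw [zero_mul] at h1
    filter_upwards [h1.eventually_le_const (hne n hn)] with κ hκ _ using hκ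
  obtain ⟨κ, h1, h2⟩ := (hev.and (Ioc_mem_nhdsGT (show (0 : ℝ) < 1 by norm_num))).exists
  refine ⟨κ, h2.1, h2.2, fun X e hX he n hn hnX l => ?_⟩
  have h3 : κ * psi k (ht n * 2) ≤ |form α n - round (form α n)| := by
    by_cases h : n ∈ hfin.toFinset
    · exact h1 n h hn
    · simp only [Finite.mem_toFinset, mem_ofPred_eq, not_lt] at h
      exact (mul_le_of_le_one_left (hpos n).le h2.2).trans h
  have h4 := psi_ge k (show 2 ≤ ht n * 2 by linarith [one_le_ht n])
    (show ht n * 2 ≤ 2 * ∏ r, X r by linarith [ht_le n X hX hnX]) he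
  have h5 := round_le (form α n) (-l)
  push_cast at h5
  rw [sub_neg_eq_add] at h5
  refine le_trans ?_ (h3.trans h5)
  rw [div_eq_mul_one_div]
  exact mul_le_mul_of_nonneg_left h4 h2.1.le

theorem main [Nonempty J] (α : J → ℝ) :
    ∀ᵐ t : ℝ, {p : (J → ℤ) × ℤ | |form α p.1 + p.2 * t - round (form α p.1 + p.2 * t)| <
      psi (Fintype.card J + 1) (ht p.1 * max |(p.2 : ℝ)| 2)}.Infinite := by
  set k := Fintype.card J + 1 with hk
  by_cases hfin : {n : J → ℤ | |form α n - round (form α n)| < psi k (ht n * 2)}.Finite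
  swap
  · refine Eventually.of_forall fun t => ?_
    refine Infinite.of_image Prod.fst (Infinite.mono (fun n hn => ⟨(n, 0), ?_, rfl⟩) hfin)
    simpa using hn
  obtain ⟨κ, hκ, hκ1, hD⟩ := dio_of_finite α k hfin
  let Z : ℕ → ℕ → Set ℝ := fun B T => {t | t ∈ Icc (-(B : ℝ)) B ∧ ∀ (n : J → ℤ) (q : ℕ), T < q →
    psi k (ht n * max |(q : ℝ)| 2) ≤ |form α n + q * t - round (form α n + q * t)|}
  have hZ : ∀ B T, volume (Z B T) = 0 := by
    intro B T
    refine null hD hκ hκ1 hk (Z B T) B (by positivity) (fun t ht => ht.1) T ?_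
    intro t ht' X y e n q l hX hn hy hq hT he
    have h1 := ht'.2 n q hT
    have hy' : (2 : ℝ) ≤ y := by exact_mod_cast hy
    have hq' : (q : ℝ) ≤ y := by exact_mod_cast hq
    have h2 := psi_ge k (H := ht n * max |(q : ℝ)| 2) (by
      nlinarith [one_le_ht n, le_max_right |(q : ℝ)| 2]) (mul_le_mul (ht_le n (fun r => X r)
      (fun r => by exact_mod_cast hX r) hn) (max_le (by simpa using hq') hy') (by positivity)
      (by positivity)) he
    have h5 := round_le (form α n + q * t) (-l)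
    push_cast at h5
    refine (h2.trans (h1.trans h5)).trans (le_of_eq ?_)
    congr 1
    ring
  refine measure_mono_null ?_ (measure_iUnion_null fun B => measure_iUnion_null fun T => hZ B T)
  intro t ht'
  simp only [mem_compl_iff, mem_ofPred_eq, not_infinite] at ht'
  obtain ⟨T, hT⟩ := (ht'.image fun p => p.2.toNat).bddAbove
  obtain ⟨B, hB⟩ := exists_nat_ge |t|
  refine mem_iUnion.2 ⟨B, mem_iUnion.2 ⟨T, abs_le.1 hB, fun n q hq => ?_⟩⟩
  by_contra h
  have := hT ⟨(n, (q : ℤ)), by simpa using h, rfl⟩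
  simp at this
  omega

end Pool.Agent.H.MP_04276e_nt
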